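import Pool.Agent.TH707.EO.Plant2
import Pool.Agent.TH707.DP.SCNC
import Pool.Agent.TH678.PC.Adv3

/-!
# Changes of every oracle for which the hard functions need deep circuits
-/

set_option autoImplicit false

namespace Pool.Agent.TH707.EO

open Pool.Agent.NPC Pool.Agent.H620R2.Gauge Pool.Agent.H622R2.Ckt Finset Filter
open Pool.Agent.TH707.DP
open Pool.Agent.H943R6.MC (length_bitsOf')
open Pool.Agent.W900.CH (Close dist)
open Pool.Agent.TH678.PC (exists_stages exists_exp_le pow_ev)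

/-! ### The rounds of circuits -/

open Classical in
/-- the questions of depth at most `j` -/
noncomputable def QS (C : Circuit) (x : List Bool) (j : ℕ) (A : Oracle) : Finset (List Bool) :=
  (((asked A x C.gates).filter fun q => q.1 ≤ j).map Prod.snd).toFinset

theorem mem_QS {C : Circuit} {x : List Bool} {j : ℕ} {A : Oracle} {y : List Bool} :
    y ∈ QS C x j A ↔ ∃ q ∈ asked A x C.gates, q.1 ≤ j ∧ q.2 = y := by
  classical
  unfold QS
  rw [List.mem_toFinset, List.mem_map]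
  constructor
  · rintro ⟨q, hq, h⟩
    rw [List.mem_filter] at hq
    exact ⟨q, hq.1, by simpa using hq.2, h⟩
  · rintro ⟨q, hq, h1, h2⟩
    exact ⟨q, List.mem_filter.2 ⟨hq, by simpa using h1⟩, h2⟩

/-- the rounds of a circuit -/
noncomputable def rndS (C : Circuit) (x : List Bool) {s : ℕ} (hs : C.size ≤ s) : SRounds s where
  Q := QS C x
  zero := by
    intro A
    rw [eq_empty_iff_forall_notMem]
    intro y hy
    rw [mem_QS] at hy
    obtain ⟨q, hq, h1, -⟩ := hy
    have := depth_pos _ _ _ q hq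
    omega
  mono := by
    intro j A y hy
    rw [mem_QS] at hy ⊢
    obtain ⟨q, hq, h1, h2⟩ := hy
    exact ⟨q, hq, h1.trans (Nat.le_succ j), h2⟩
  step := by
    intro j A A' h
    ext y
    rw [mem_QS, mem_QS]
    have h1 := (agree (A := A) (A' := A') j C.gates fun q hq hj => h q.2
      (mem_QS.2 ⟨q, hq, hj, rfl⟩)).2
    constructor
    · rintro ⟨q, hq, h2, h3⟩
      exact ⟨q, (h1 q h2).1 hq, h2, h3⟩
    · rintro ⟨q, hq, h2, h3⟩
      exact ⟨q, (h1 q h2).2 hq, h2, h3⟩
  card := by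
    intro j A
    classical
    unfold QS
    refine (List.toFinset_card_le _).trans ?_
    rw [List.length_map]
    refine (List.length_filter_le _ _).trans ?_
    exact ((length_asked _ _ _).trans (CNT.length_gates_le C)).trans hs

theorem few_depth {C : Circuit} {s t : ℕ} (hs : C.size ≤ s) (ht : depth C ≤ t) (x : List Bool) :
    Few t s (fun A => C.eval A x) :=
  ⟨rndS C x hs, fun A A' h => (agree (A := A) (A' := A') t C.gates fun q hq hj => h q.2
    (mem_QS.2 ⟨q, hq, hj, rfl⟩)).1 C.out ht⟩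

/-- a fixed set of questions -/
def constS {r : ℕ} (Z : Finset (List Bool)) (hZ : Z.card ≤ r) : SRounds r where
  Q j _ := if j = 0 then ∅ else Z
  zero := fun a => by simp
  mono := by
    intro j a
    by_cases h : j = 0
    · simp [h]
    · simp [h]
  step := fun j a a' _ => rfl
  card := by
    intro j a
    by_cases h : j = 0
    · simp [h]
    · simp [h, hZ]

theorem few_narrow {n s w : ℕ} {C : Circuit} {E : LCircuit} (hs : E.size ≤ s)
    (hw : E.WidthLE w)
    (hC : ∀ (A : Oracle) (x : List Bool), x.length = n → C.eval A x = E.eval A x)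
    {u : List Bool} (hu : u.length = n) : Few 1 (s * 2 ^ w) (fun A => C.eval A u) := by
  classical
  have hcard : ((cand u E.layers).1).toFinset.card ≤ s * 2 ^ w := by
    refine (List.toFinset_card_le _).trans ((length_cand u E.layers hw).2.trans ?_)
    exact Nat.mul_le_mul_right _ hs
  refine ⟨constS _ hcard, fun A A' h => ?_⟩
  show C.eval A' u = C.eval A u
  rw [hC _ _ hu, hC _ _ hu]
  unfold LCircuit.eval
  rw [vals_of_cand (A := A) (A' := A') (x := u) E.layers fun q hq => h q ?_]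
  simp only [constS]
  rw [if_neg (by omega), List.mem_toFinset]
  exact hq

/-! ### The requirement -/

/-- On some length `n ≥ n₀` no circuit of size at most `n ^ c` in the class `Dev n` computes the
hard function. -/
def RqH (l t : ℕ → ℕ) (Dev : ℕ → Circuit → Prop) (c n₀ : ℕ) (A : Oracle) : Prop :=
  ∃ n ≥ n₀, ∀ C : Circuit, C.size ≤ n ^ c → Dev n C →
    ∃ u : List Bool, u.length = n ∧ C.eval A u ≠ (hard2 n (l n) (t n)).eval A u

/-- the number of blocks -/
def Mn (n k c : ℕ) : ℕ := (3 * dl n (n ^ c) + 1) * ((n ^ c + 1) * n ^ k + 1)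

open Classical in
theorem forced_hard {l t r : ℕ → ℕ} {k c : ℕ} (Dev : ℕ → Circuit → Prop)
    (hDev : ∀ᶠ n : ℕ in atTop, ∀ C, Dev n C → ∀ u : List Bool, u.length = n →
      Few (t n) (r n) (fun A => C.eval A u))
    (hl : ∀ᶠ n : ℕ in atTop, 1 ≤ l n)
    (hk : ∀ᶠ n : ℕ in atTop, (t n * l n + 1) * (n + l n + n + 1) ≤ n ^ k)
    (hts : ∀ᶠ n : ℕ in atTop, 4 * (t n * r n) ≤ 2 ^ l n) (n₀ : ℕ) :
    ∃ e n₁ : ℕ, ∀ n ≥ n₁, ∀ A : Oracle,
    ∃ (A' : Oracle) (b : ℕ) (D : Finset (List Bool)),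
      (∀ y : List Bool, y.length < n → A' y = A y) ∧ (∀ y ∉ D, A' y = A y) ∧ D.card ≤ n ^ e ∧
      ∀ A'' : Oracle, (∀ y : List Bool, y.length < b → A'' y = A' y) →
        RqH l t Dev c n₀ A'' := by
  -- the polynomials
  set dlP : Polynomial ℕ := (Polynomial.X + Polynomial.X ^ c + Polynomial.C 8) *
    (Polynomial.C 4 * Polynomial.X ^ c + Polynomial.C 4) with hdlP
  set MP : Polynomial ℕ := (Polynomial.C 3 * dlP + 1) *
    ((Polynomial.X ^ c + 1) * Polynomial.X ^ k + 1) with hMP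
  have hdl : ∀ n, dlP.eval n = dl n (n ^ c) := by
    intro n
    rw [hdlP]
    simp only [Polynomial.eval_add, Polynomial.eval_mul, Polynomial.eval_C, Polynomial.eval_X,
      Polynomial.eval_pow]
    rfl
  have hMe : ∀ n, MP.eval n = Mn n k c := by
    intro n
    rw [hMP]
    simp only [Polynomial.eval_add, Polynomial.eval_mul, Polynomial.eval_C, Polynomial.eval_X,
      Polynomial.eval_pow, Polynomial.eval_one, hdl]
    rfl
  obtain ⟨e, n₁, he⟩ := exists_exp_le (MP * Polynomial.X ^ k)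
  obtain ⟨e', n₂, he'⟩ := exists_exp_le MP
  obtain ⟨n₃, hn₃⟩ := pow_ev (max e' (k + 1))
  obtain ⟨n₄, hn₄⟩ := eventually_atTop.1 (hDev.and (hl.and (hk.and hts)))
  refine ⟨e, n₀ + n₁ + n₂ + n₃ + n₄ + 2, fun n hn A => ?_⟩
  obtain ⟨g1, g2, g3, g4⟩ := hn₄ n (by omega)
  obtain ⟨M, hM⟩ : ∃ M, M = Mn n k c := ⟨_, rfl⟩
  have hpow : n ^ (max e' (k + 1)) ≤ 2 ^ n := hn₃ n (by omega)
  have hM2 : M ≤ 2 ^ n := by
    refine le_trans ?_ hpow
    rw [hM, ← hMe]
    exact (he' n (by omega)).trans (Nat.pow_le_pow_right (by omega) (le_max_left _ _))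
  have htl : t n * l n + 1 ≤ n ^ k := le_trans (Nat.le_mul_of_pos_right _ (by omega)) g3
  have ht2 : t n * l n < 2 ^ n := by
    have h1 : n ^ k ≤ n ^ (max e' (k + 1)) :=
      Nat.pow_le_pow_right (by omega) ((Nat.le_succ k).trans (le_max_right _ _))
    omega
  obtain ⟨F, hF1, hF2⟩ := exists_circuits n (n ^ c)
  set F' := F.filter (fun C => C.size ≤ n ^ c ∧ ∃ D : Circuit, Dev n D ∧
    ∀ (A : Oracle) (x : List Bool), x.length = n → C.eval A x = D.eval A x) with hF'
  have hFc : F'.card * 3 ^ (3 * dl n (n ^ c) + 1) < 4 ^ (3 * dl n (n ^ c) + 1) := by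
    have h1 : F'.card ≤ 2 ^ dl n (n ^ c) :=
      ((card_le_card (filter_subset _ _)).trans hF1).trans (nC_le _ _)
    generalize dl n (n ^ c) = d at h1 ⊢
    calc F'.card * 3 ^ (3 * d + 1) ≤ 2 ^ d * 3 ^ (3 * d + 1) := Nat.mul_le_mul_right _ h1
      _ = 54 ^ d * 3 := by
        rw [pow_succ, pow_mul, ← mul_assoc, ← mul_pow]
        norm_num
      _ < 64 ^ d * 4 := by
        have h2 : 54 ^ d ≤ 64 ^ d := Nat.pow_le_pow_left (by norm_num) d
        have h3 : 0 < 64 ^ d := by positivity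
        omega
      _ = 4 ^ (3 * d + 1) := by
        rw [pow_succ, pow_mul]
        norm_num
  obtain ⟨y, hy⟩ := exists_plant (M := M) (n := n) (l := l n) (t := t n) hM2 ht2 A F'
    (fun C c A => C.eval A (bitsOf n c)) g2 (r := r n) (s := n ^ c)
    (m := 3 * dl n (n ^ c) + 1) g4 (by
      rw [hM]
      unfold Mn
      refine Nat.mul_le_mul_left _ (Nat.add_le_add_right ?_ 1)
      exact Nat.mul_le_mul_left _ htl) hFc (by
      intro C hC i
      obtain ⟨-, -, D, hD, hev⟩ := mem_filter.1 hC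
      obtain ⟨R, hR⟩ := g1 D hD (bitsOf n i) (length_bitsOf' _ _)
      refine ⟨R, fun A A' h => ?_⟩
      show C.eval A' _ = C.eval A _
      rw [hev _ _ (length_bitsOf' _ _), hev _ _ (length_bitsOf' _ _)]
      exact hR A A' h) (by
      intro C hC i
      obtain ⟨-, hs, -⟩ := mem_filter.1 hC
      exact ⟨depth C, few_depth hs le_rfl _⟩)
  refine ⟨pl n A y, n ^ c + n ^ k + 1, chS n y, fun q hq => ?_, fun q hq => pl_chS A y hq, ?_,
    fun A'' hA'' => ?_⟩
  · apply pl_chS
    intro h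
    have := length_chS y h
    omega
  · refine (card_chS y).trans ?_
    refine le_trans ?_ (he n (by omega))
    rw [Polynomial.eval_mul, Polynomial.eval_pow, Polynomial.eval_X, hMe, ← hM]
    exact Nat.mul_le_mul_left _ htl
  · refine ⟨n, by omega, fun C hC hD => ?_⟩
    obtain ⟨C', hC', hs', hev⟩ := hF2 C hC
    obtain ⟨i, hi⟩ := hy C' (mem_filter.2 ⟨hC', hs', C, hD, hev⟩)
    refine ⟨bitsOf n i, length_bitsOf' _ _, ?_⟩
    have h1 : C.eval A'' (bitsOf n i) = C.eval (pl n A y) (bitsOf n i) :=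
      eval_local C _ _ (fun q hq => hA'' q (by omega)) _
    have h2 : (hard2 n (l n) (t n)).eval A'' (bitsOf n i) =
        (hard2 n (l n) (t n)).eval (pl n A y) (bitsOf n i) := by
      refine eval_local _ _ _ (fun q hq => hA'' q ?_) _
      rw [hard2_size] at hq
      omega
    rw [h1, h2, ← hev _ _ (length_bitsOf' _ _)]
    exact hi

/-! ### The stages -/

theorem stage_all {ι : Type*} [Countable ι] [Nonempty ι] (Rq : ι → Oracle → Prop)
    (hf : ∀ i, ∃ e n₁ : ℕ, ∀ n ≥ n₁, ∀ A : Oracle,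
      ∃ (A' : Oracle) (b : ℕ) (D : Finset (List Bool)),
      (∀ y : List Bool, y.length < n → A' y = A y) ∧ (∀ y ∉ D, A' y = A y) ∧ D.card ≤ n ^ e ∧
      ∀ A'' : Oracle, (∀ y : List Bool, y.length < b → A'' y = A' y) → Rq i A'')
    {g : ℕ → ℝ} (hg : ¬ ∃ c : ℕ, ∀ᶠ n : ℕ in atTop, ∃ m ≥ n, g m ≤ (n : ℝ) ^ c) (O : Oracle) :
    ∃ A, Close g O A ∧ ∀ i, Rq i A := by
  push Not at hg
  have hg' : ∀ c n₀ : ℕ, ∃ n ≥ n₀, ∀ m ≥ n, (n : ℝ) ^ c < g m := by
    intro c n₀
    have h1 := hg c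
    rw [frequently_atTop] at h1
    obtain ⟨n, hn, h2⟩ := h1 n₀
    exact ⟨n, hn, h2⟩
  have h0 : ∀ᶠ n : ℕ in atTop, 0 ≤ g n := by
    obtain ⟨n, _, h1⟩ := hg' 0 0
    filter_upwards [eventually_ge_atTop n] with m hm
    have := h1 m hm
    rw [pow_zero] at this
    linarith
  obtain ⟨np, hnp⟩ := exists_surjective_nat ι
  obtain ⟨A, hA, hR⟩ := exists_stages (Rq := fun i => Rq (np i)) h0
    (by
      intro j n₀ T A
      obtain ⟨e, n₁, h1⟩ := hf (np j)
      obtain ⟨n, hn, h2⟩ := hg' (e + 1) (n₀ + n₁ + T + 1)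
      obtain ⟨A', b, D, h3, h4, h5, h6⟩ := h1 n (by omega) A
      refine ⟨n, A', b, D, by omega, h3, h4, fun m hm => ?_, h6⟩
      refine le_trans ?_ (h2 m hm).le
      have h7 : T + D.card ≤ n ^ (e + 1) := by
        have h8 : 1 ≤ n ^ e := Nat.one_le_iff_ne_zero.2 (pow_ne_zero _ (by omega))
        calc T + D.card ≤ T * n ^ e + n ^ e := by nlinarith
          _ = (T + 1) * n ^ e := by ring
          _ ≤ n * n ^ e := Nat.mul_le_mul_right _ (by omega)
          _ = n ^ (e + 1) := by ring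
      exact_mod_cast h7) O
  refine ⟨A, hA, fun i => ?_⟩
  obtain ⟨j, rfl⟩ := hnp i
  exact hR j

end Pool.Agent.TH707.EO
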