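import Pool.Agent.TH707.EO.Robust

/-!
# Changes of every oracle: circuit classes
-/

set_option autoImplicit false

namespace Pool.Agent.TH707.EO

open Pool.Agent.NPC Pool.Agent.H620R2.Gauge Pool.Agent.H622R2 Pool.Agent.H622R2.Ckt Finset Filter
open Pool.Agent.W900.CH (Close dist)
open Pool.Agent.TH678.PC (exists_exp_le pow_ev dist_poly)
open Pool.Agent.TH707.DP Pool.Agent.TH707.EC

/-! ### The hard sides -/

/-- the devices of a requirement -/
def DevN (b c : ℕ) (n : ℕ) (C : Circuit) : Prop := C.size ≤ n ^ c ∧ depth C ≤ n ^ b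

/-- the narrow devices -/
def DevW (b c : ℕ) (n : ℕ) (C : Circuit) : Prop :=
  ∃ E : LCircuit, E.size ≤ n ^ c ∧ E.WidthLE (n ^ b) ∧
    ∀ (A : Oracle) (x : List Bool), x.length = n → C.eval A x = E.eval A x

/-- the requirements for `SC` and `NC` -/
def RqSN : Bool × ℕ × ℕ × ℕ → Oracle → Prop
  | (false, b, c, n₀) => RqH (fun n => (Nat.log 2 n) ^ 2) (fun n => n ^ b) (DevN b c) c n₀
  | (true, b, c, n₀) => RqH (fun n => n ^ (b + 2)) (fun _ => 1) (DevW b c) (c + 2) n₀

theorem forced_SN (i : Bool × ℕ × ℕ × ℕ) : ∃ e n₁ : ℕ, ∀ n ≥ n₁, ∀ A : Oracle,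
    ∃ (A' : Oracle) (b : ℕ) (D : Finset (List Bool)),
      (∀ y : List Bool, y.length < n → A' y = A y) ∧ (∀ y ∉ D, A' y = A y) ∧ D.card ≤ n ^ e ∧
      ∀ A'' : Oracle, (∀ y : List Bool, y.length < b → A'' y = A' y) → RqSN i A'' := by
  obtain ⟨τ, b, c, n₀⟩ := i
  cases τ with
  | false =>
    obtain ⟨k, hk⟩ := LS_size b
    refine forced_hard (k := k) (r := fun n => n ^ c) (DevN b c) ?_ ?_ hk ?_ n₀
    · filter_upwards with n C hC u _
      exact few_depth hC.1 hC.2 u
    · filter_upwards [eventually_ge_atTop 2] with n hn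
      exact Nat.one_le_pow _ _ (Nat.le_log_of_pow_le (by norm_num) (by simpa using hn))
    · filter_upwards [tendsto_natLog.eventually (eventually_ge_atTop (2 * (b + c) + 2))]
        with n hL
      set L := Nat.log 2 n with hLdef
      calc 4 * (n ^ b * n ^ c) = 2 ^ 2 * n ^ (b + c) := by rw [pow_add]; ring
        _ ≤ 2 ^ 2 * (2 ^ (L + 1)) ^ (b + c) :=
            Nat.mul_le_mul_left _ (Nat.pow_le_pow_left (lt_pow_log n).le _)
        _ = 2 ^ (2 + (L + 1) * (b + c)) := by rw [← pow_mul, ← pow_add]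
        _ ≤ 2 ^ (L ^ 2) := by
            refine Nat.pow_le_pow_right (by norm_num) ?_
            have h1 : (2 * (b + c) + 2) * L ≤ L ^ 2 := by
              rw [pow_two]
              exact Nat.mul_le_mul_right _ hL
            have h2 : (b + c) * 1 ≤ (b + c) * L := Nat.mul_le_mul_left _ (by omega)
            nlinarith
  | true =>
    obtain ⟨k, hk⟩ := LN_size b
    refine forced_hard (k := k) (r := fun n => n ^ c * 2 ^ (n ^ b)) (DevW b c) ?_ ?_ hk ?_ n₀
    · filter_upwards with n C hC u hu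
      obtain ⟨E, h1, h2, h3⟩ := hC
      exact few_narrow h1 h2 h3 hu
    · filter_upwards [eventually_ge_atTop 1] with n hn
      exact Nat.one_le_pow _ _ hn
    · filter_upwards [poly_le_two_pow (Polynomial.C 4 * Polynomial.X ^ c),
        eventually_ge_atTop 2] with n h1 hn
      rw [Polynomial.eval_mul, Polynomial.eval_C, Polynomial.eval_pow, Polynomial.eval_X] at h1
      calc 4 * (1 * (n ^ c * 2 ^ (n ^ b))) = (4 * n ^ c) * 2 ^ (n ^ b) := by ring
        _ ≤ 2 ^ n * 2 ^ (n ^ b) := Nat.mul_le_mul_right _ h1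
        _ = 2 ^ (n + n ^ b) := (pow_add _ _ _).symm
        _ ≤ 2 ^ (n ^ (b + 2)) := by
            refine Nat.pow_le_pow_right (by norm_num) ?_
            have h2 : n ^ b ≤ n ^ (b + 1) := Nat.pow_le_pow_right (by omega) (by omega)
            have h3 : n ≤ n ^ (b + 1) := Nat.le_self_pow (by omega) n
            have h4 : n ^ (b + 2) = n ^ (b + 1) * n := pow_succ _ _
            nlinarith

theorem not_shallow {A : Oracle} (h : ∀ i, RqSN i A) : ¬ ShallowSC A := by
  rintro ⟨b, hb⟩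
  obtain ⟨c, hc⟩ := hb (LS b A) (LS_inSC b A)
  obtain ⟨n₀, hn₀⟩ := eventually_atTop.1 hc
  obtain ⟨n, hn, hR⟩ := h (false, b, c, n₀)
  obtain ⟨D, h1, h2, h3⟩ := hn₀ n hn
  obtain ⟨u, hu, hne⟩ := hR D h1 ⟨h1, h2⟩
  apply hne
  have h4 := h3 u hu
  unfold LS at h4
  rw [Set.mem_ofPred_eq, hu] at h4
  exact Bool.eq_iff_iff.2 h4.symm

theorem not_narrow {A : Oracle} (h : ∀ i, RqSN i A) : ¬ NarrowNC A := by
  rintro ⟨b, hb⟩
  obtain ⟨c, hc⟩ := hb (LN b A) (LN_inNC b A)
  obtain ⟨n₀, hn₀⟩ := eventually_atTop.1 hc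
  obtain ⟨n, hn, hR⟩ := h (true, b, c, n₀ + 2)
  obtain ⟨E, h1, h2, h3⟩ := hn₀ n (by omega)
  have hs : (toC n E).size ≤ n ^ (c + 2) := by
    rw [toC_size]
    have h4 : n ≤ n ^ (c + 1) := Nat.le_self_pow (by omega) n
    have h5 : n ^ c ≤ n ^ (c + 1) := Nat.pow_le_pow_right (by omega) (by omega)
    have h6 : n ^ (c + 2) = n ^ (c + 1) * n := pow_succ _ _
    nlinarith
  obtain ⟨u, hu, hne⟩ := hR (toC n E) hs ⟨E, h1, h2, fun A x hx => toC_eval hx A E⟩
  apply hne
  have h4 := h3 u hu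
  unfold LN at h4
  rw [Set.mem_ofPred_eq, hu] at h4
  rw [toC_eval hu]
  exact Bool.eq_iff_iff.2 h4.symm

/-- **More than polynomially many changes: `SC` and `NC` are incomparable.** -/
theorem many_SN {g : ℕ → ℝ}
    (hg : ¬ ∃ c : ℕ, ∀ᶠ n : ℕ in atTop, ∃ m ≥ n, g m ≤ (n : ℝ) ^ c) (O : Oracle) :
    ∃ A, Close g O A ∧ ¬ ShallowSC A ∧ ¬ NarrowNC A := by
  obtain ⟨A, hA, hR⟩ := stage_all RqSN forced_SN hg O
  exact ⟨A, hA, not_shallow hR, not_narrow hR⟩

/-- the requirements for `P` and the depth -/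
def RqD : ℕ × ℕ × ℕ → Oracle → Prop
  | (b, c, n₀) => RqH (fun n => n) (fun n => n ^ b) (DevN b c) c n₀

theorem forced_D (i : ℕ × ℕ × ℕ) : ∃ e n₁ : ℕ, ∀ n ≥ n₁, ∀ A : Oracle,
    ∃ (A' : Oracle) (b : ℕ) (D : Finset (List Bool)),
      (∀ y : List Bool, y.length < n → A' y = A y) ∧ (∀ y ∉ D, A' y = A y) ∧ D.card ≤ n ^ e ∧
      ∀ A'' : Oracle, (∀ y : List Bool, y.length < b → A'' y = A' y) → RqD i A'' := by
  obtain ⟨b, c, n₀⟩ := i
  obtain ⟨k, hk⟩ := poly_le_pow ((Polynomial.X ^ b * Polynomial.X + 1) *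
    (Polynomial.X + Polynomial.X + Polynomial.X + 1))
  refine forced_hard (k := k) (r := fun n => n ^ c) (DevN b c) ?_ ?_ ?_ ?_ n₀
  · filter_upwards with n C hC u _
    exact few_depth hC.1 hC.2 u
  · exact eventually_ge_atTop 1
  · filter_upwards [eventually_ge_atTop 2] with n hn
    refine le_trans ?_ (hk n hn)
    simp only [Polynomial.eval_add, Polynomial.eval_mul, Polynomial.eval_X, Polynomial.eval_pow,
      Polynomial.eval_one]
    exact le_rfl
  · filter_upwards [poly_le_two_pow (Polynomial.C 4 * (Polynomial.X ^ b * Polynomial.X ^ c))]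
      with n h1
    simpa only [Polynomial.eval_mul, Polynomial.eval_C, Polynomial.eval_pow,
      Polynomial.eval_X] using h1

theorem not_polyDepth {A : Oracle} (h : ∀ i, RqD i A) : ¬ PolyDepth A := by
  rintro ⟨b, hb⟩
  obtain ⟨c, hc⟩ := hb (Lb b A) (Lb_isP b A)
  obtain ⟨n₀, hn₀⟩ := eventually_atTop.1 hc
  obtain ⟨n, hn, hR⟩ := h (b, c, n₀ + 1)
  obtain ⟨D, h1, h2, h3⟩ := hn₀ n (by omega)
  obtain ⟨u, hu, hne⟩ := hR D h1 ⟨h1, h2⟩
  apply hne
  have h4 := (h3 u hu).symm.trans (mem_Lb b A hu (by omega))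
  exact Bool.eq_iff_iff.2 h4

/-- **More than polynomially many changes: `P` needs deep circuits.** -/
theorem many_D {g : ℕ → ℝ}
    (hg : ¬ ∃ c : ℕ, ∀ᶠ n : ℕ in atTop, ∃ m ≥ n, g m ≤ (n : ℝ) ^ c) (O : Oracle) :
    ∃ A, Close g O A ∧ ¬ PolyDepth A := by
  obtain ⟨A, hA, hR⟩ := stage_all RqD forced_D hg O
  exact ⟨A, hA, not_polyDepth hR⟩

/-! ### The easy sides -/

theorem nc_sc_of_one {A : Oracle} {L : Set (List Bool)} {d : ℕ}
    (h : ∀ᶠ n : ℕ in atTop, ∃ (p : List Bool) (M : List ℕ),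
      (one p M).size ≤ n ^ d ∧ Decides A L n (one p M)) : InNC A L ∧ InSC A L := by
  refine ⟨⟨d + 2, ?_⟩, ⟨d + 2, ?_⟩⟩
  · filter_upwards [h, log_bound (d + 1), eventually_ge_atTop 2] with n h hlog hn
    obtain ⟨p, M, h1, h2⟩ := h
    have hL : 1 ≤ Nat.log 2 n := Nat.le_log_of_pow_le (by norm_num) (by simpa using hn)
    refine ⟨one p M, h1.trans (Nat.pow_le_pow_right (by omega) (by omega)), ?_, h2⟩
    rw [one_depth]
    rw [one_size] at h1
    have h3 : Nat.log 2 (p.length + M.length) ≤ d * (Nat.log 2 n + 1) :=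
      (Nat.log_mono_right (by omega)).trans (log_pow n d)
    calc Nat.log 2 (p.length + M.length) + 1 ≤ d * (Nat.log 2 n + 1) + (Nat.log 2 n + 1) := by
          omega
      _ = (d + 1) * (Nat.log 2 n + 1) := by ring
      _ ≤ (Nat.log 2 n) ^ 2 := hlog
      _ ≤ (Nat.log 2 n) ^ (d + 2) := Nat.pow_le_pow_right hL (by omega)
  · filter_upwards [h, eventually_ge_atTop 2] with n h hn
    obtain ⟨p, M, h1, h2⟩ := h
    have hL : 1 ≤ Nat.log 2 n := Nat.le_log_of_pow_le (by norm_num) (by simpa using hn)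
    refine ⟨⟨[[.ask (p.map LWire.cst ++ M.map LWire.inp)]], .prev 0⟩, ?_, ?_, fun x hx => ?_⟩
    · refine le_trans ?_ (h1.trans (Nat.pow_le_pow_right (by omega) (Nat.le_add_right d 2)))
      rw [one_size]
      simp [LCircuit.size, LGate.size]
    · intro layer hlayer
      simp only [List.mem_singleton] at hlayer
      rw [hlayer]
      simpa using Nat.one_le_pow _ _ hL
    · rw [h2 x hx, one_eval]
      unfold LCircuit.eval layerVals
      simp only [List.foldl_cons, List.foldl_nil, LWire.val, LGate.val, List.map_cons,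
        List.map_nil, List.getD_cons_zero, List.map_append]
      rw [map_cstL, List.map_map]
      rfl

theorem sub_range {x : List Bool} {n : ℕ} (hx : x.length = n) : sub (List.range n) x = x := by
  subst hx
  exact CIR.map_getD x

/-- **Polynomially many changes: everything stays easy.** -/
theorem few_SN {g : ℕ → ℝ}
    (hg : ∃ c : ℕ, ∀ᶠ n : ℕ in atTop, ∃ m ≥ n, g m ≤ (n : ℝ) ^ c) :
    ∃ O : Oracle, ∀ A, Close g O A → AllEasy A := by
  set b : ℕ → Polynomial ℕ := fun k => Polynomial.C k with hb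
  obtain ⟨O, hO⟩ := robust b
    (fun k B x => (desc (unpair x).2.length k (unpair x).1).eval B (unpair x).2 = true) (by
      intro k A A' x h
      rw [eval_local _ A A' (fun z hz => h z ?_)]
      simp only [hb, Polynomial.eval_C]
      have := desc_size (unpair x).2.length k (unpair x).1
      omega)
  refine ⟨O, fun A hA => ?_⟩
  obtain ⟨d, hd⟩ := dist_poly hg hA
  rintro L ⟨c, hc⟩
  -- the length of the questions
  set dlP : Polynomial ℕ := (Polynomial.X + Polynomial.X ^ c + Polynomial.C 8) *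
    (Polynomial.C 4 * Polynomial.X ^ c + Polynomial.C 4) with hdlP
  have hdl : ∀ n, dlP.eval n = dl n (n ^ c) := by
    intro n
    rw [hdlP]
    simp only [Polynomial.eval_add, Polynomial.eval_mul, Polynomial.eval_C, Polynomial.eval_X,
      Polynomial.eval_pow]
    rfl
  set LP : Polynomial ℕ := Polynomial.X ^ c + Polynomial.X ^ c + (Polynomial.C 2 *
    (Polynomial.C 2 * (d.comp (Polynomial.X ^ c) * (Polynomial.C 2 * Polynomial.X ^ c + 1)) + 1 +
      Polynomial.X) + 1 + (Polynomial.C 2 * dlP + 1 + Polynomial.X)) + Polynomial.C 2 with hLP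
  have hLe : ∀ n, LP.eval n = Lam b d (n ^ c) (2 * dl n (n ^ c) + 1 + n) n := by
    intro n
    rw [hLP]
    unfold Lam aL
    simp only [hb, Polynomial.eval_add, Polynomial.eval_mul, Polynomial.eval_C, Polynomial.eval_X,
      Polynomial.eval_pow, Polynomial.eval_one, Polynomial.eval_comp, hdl]
  obtain ⟨k, hk⟩ := poly_le_pow (LP + (Polynomial.C 2 * dlP + 1) + Polynomial.X + 1)
  refine nc_sc_of_one (d := k) ?_
  filter_upwards [hc, poly_le_two_pow (d.comp LP + 1), eventually_ge_atTop 2] with n hn h1 hn2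
  obtain ⟨D, h2, h3⟩ := hn
  simp only [Polynomial.eval_add, Polynomial.eval_comp, Polynomial.eval_one, hLe] at h1
  have hk2 := hk n hn2
  simp only [Polynomial.eval_add, Polynomial.eval_mul, Polynomial.eval_C, Polynomial.eval_X,
    Polynomial.eval_one, hLe, hdl] at hk2
  obtain ⟨w, hw, hev⟩ := desc_spec n (n ^ c) h2
  obtain ⟨p, hp, hpx⟩ := hO A d hd (n ^ c) (2 * dl n (n ^ c) + 1 + n) n (by omega)
  refine ⟨p ++ (w.flatMap (fun b => [true, b]) ++ [false]), List.range n, ?_, fun x hx => ?_⟩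
  · rw [one_size, List.length_append, List.length_append, List.length_range]
    have h4 : (w.flatMap (fun b => [true, b])).length = 2 * w.length := by
      rw [List.length_flatMap]
      simp [mul_comm]
    rw [h4, hw, List.length_singleton]
    omega
  · rw [one_eval, sub_range hx]
    have h4 : p ++ (w.flatMap (fun b => [true, b]) ++ [false]) ++ x = p ++ pairBits w x := by
      unfold pairBits
      simp only [List.append_assoc, List.cons_append, List.nil_append]
    rw [h4, hpx (pairBits w x) (by rw [length_pairBits, hw, hx])]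
    rw [unpair_pairBits]
    simp only [hx]
    rw [hev _ _ hx]
    exact h3 x hx

theorem nc1_of_one {A : Oracle} {L : Set (List Bool)} (P : Polynomial ℕ)
    (h : ∀ᶠ n : ℕ in atTop, ∃ p : List Bool, p.length ≤ P.eval n ∧
      ∀ x : List Bool, x.length = n → (A (p ++ x) = true ↔ x ∈ L)) : InNC1 A L := by
  obtain ⟨k, hk⟩ := poly_le_pow (P + Polynomial.X)
  refine ⟨k + 1, ?_⟩
  filter_upwards [h, eventually_ge_atTop 2] with n h hn
  obtain ⟨p, hp, hpx⟩ := h
  have h1 := hk n hn
  simp only [Polynomial.eval_add, Polynomial.eval_X] at h1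
  refine ⟨one p (List.range n), ?_, fun x hx => ?_⟩
  · rw [one_depth, List.length_range]
    have hn0 : (0 : ℝ) < n := by
      have : 0 < n := by omega
      exact_mod_cast this
    have h2 : (1 : ℝ) ≤ Real.logb 2 n := by
      rw [Real.le_logb_iff_rpow_le (by norm_num) hn0, Real.rpow_one]
      exact_mod_cast hn
    have h3 : ((Nat.log 2 (p.length + n) : ℕ) : ℝ) ≤ k * Real.logb 2 n := by
      rw [← Real.logb_pow, Real.le_logb_iff_rpow_le (by norm_num) (by positivity),
        Real.rpow_natCast]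
      have h4 := Nat.pow_log_le_self 2 (show p.length + n ≠ 0 by omega)
      exact_mod_cast h4.trans (by omega)
    push_cast
    linarith
  · rw [one_eval, sub_range hx, hpx x hx]

/-- **Polynomially many changes: `PSPACE` stays in `NC¹`.** -/
theorem few_D {g : ℕ → ℝ}
    (hg : ∃ c : ℕ, ∀ᶠ n : ℕ in atTop, ∃ m ≥ n, g m ≤ (n : ℝ) ^ c) :
    ∃ O : Oracle, ∀ A, Close g O A → ∀ L, IsPSPACE A L → InNC1 A L := by
  obtain ⟨gg, hgg⟩ := CC.exists_enum
  choose b hb using fun e : ℕ => pspace_task (gg e).1 (gg e).2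
  obtain ⟨O, hO⟩ := robust b
    (fun e B x => CC.Acc (gg e).1 (CC.cut ((b e).eval x.length) B) x) (by
      intro e A A' x h
      have hcut : CC.cut ((b e).eval x.length) A = CC.cut ((b e).eval x.length) A' := by
        funext z
        unfold CC.cut
        split_ifs with hz
        · exact h z hz
        · rfl
      simp only [hcut])
  refine ⟨O, fun A hA => ?_⟩
  obtain ⟨d, hd⟩ := dist_poly hg hA
  rintro L ⟨M, p, hM⟩
  obtain ⟨e, he⟩ := hgg (M, p)
  have hbe := hb e A L (by rw [he]; exact hM)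
  set aP : Polynomial ℕ := d.comp (b e) * (Polynomial.C 2 * b e + 1) with haP
  set ZP : Polynomial ℕ := Polynomial.C 2 * (Polynomial.C 2 * aP + 1 + Polynomial.X) + 1 +
    Polynomial.X with hZP
  set LP : Polynomial ℕ := Polynomial.C e + (b e).comp ZP + ZP + Polynomial.C 2 with hLP
  have hLe : ∀ n, LP.eval n = Lam b d e n n := by
    intro n
    rw [hLP, hZP, haP]
    unfold Lam aL
    simp only [Polynomial.eval_add, Polynomial.eval_mul, Polynomial.eval_C, Polynomial.eval_X,
      Polynomial.eval_one, Polynomial.eval_comp]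
  refine nc1_of_one LP ?_
  filter_upwards [poly_le_two_pow (d.comp LP + 1)] with n h1
  simp only [Polynomial.eval_add, Polynomial.eval_comp, Polynomial.eval_one, hLe] at h1
  obtain ⟨q, hq, hqx⟩ := hO A d hd e n n (by omega)
  refine ⟨q, by rw [hLe]; exact hq, fun x hx => ?_⟩
  rw [hqx x hx, hbe x]

end Pool.Agent.TH707.EO
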