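import Pool.Agent.TH678.PC.Adv3
import Pool.Agent.TH707.BP.Null
import Pool.Agent.H943R6.MC.CMB

/-!
# Changes of every oracle for which the minimisation problems are hard
-/

set_option autoImplicit false

namespace Pool.Agent.TH707.EO

open Pool.Agent.NPC Pool.Agent.H620R2.Gauge Pool.Agent.H622R2.Ckt Finset H568R2
open Pool.Agent.H943R6.MC Pool.Agent.TH707.BP Filter
open Pool.Agent.W900.CH (Close dist)
open Pool.Agent.TH678.PC (AccN)
open Pool.Agent.TH678.PC (exists_stages accN_agree' exists_exp_le pow_ev exists_np2 card_adv)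
open Pool.Agent.TH678.ETH (Ex_union)

/-! ### The changed oracle -/

/-- the bits: the seed and the position in the table -/
abbrev Ix (K j : ℕ) : Type := Fin K × Fin (2 ^ (2 * j))

/-- the string of a bit -/
def str' {K j : ℕ} (t : Ix K j) : List Bool :=
  bitsOf (2 ^ j) t.1 ++ (cube (2 * j))[t.2.1]'(by rw [length_cube]; exact t.2.2)

theorem length_str' {K j : ℕ} (t : Ix K j) : (str' t).length = 2 ^ j + 2 * j := by
  unfold str'
  rw [List.length_append, length_bitsOf', length_cube_mem (2 * j) _ (List.getElem_mem _)]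

theorem nodup_cube : ∀ n : ℕ, (cube n).Nodup
  | 0 => by simp [cube]
  | n + 1 => by
    have ih := nodup_cube n
    unfold cube
    refine List.Nodup.append (ih.map ?_) (ih.map ?_) ?_
    · intro a b h; exact (List.cons.inj h).2
    · intro a b h; exact (List.cons.inj h).2
    · intro x hx hy
      rw [List.mem_map] at hx hy
      obtain ⟨a, _, rfl⟩ := hx
      obtain ⟨b, _, h⟩ := hy
      exact absurd (List.cons.inj h).1 (by decide)

theorem str'_inj {K j : ℕ} (hK : K ≤ 2 ^ 2 ^ j) {t t' : Ix K j} (h : str' t = str' t') :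
    t = t' := by
  unfold str' at h
  obtain ⟨h1, h2⟩ := List.append_inj h (by rw [length_bitsOf', length_bitsOf'])
  have h3 := Pool.Agent.TH678.SW.bitsOf_inj _ _ _ (lt_of_lt_of_le t.1.2 hK)
    (lt_of_lt_of_le t'.1.2 hK) h1
  have h4 := (List.Nodup.getElem_inj_iff (nodup_cube (2 * j))).1 h2
  exact Prod.ext (Fin.ext h3) (Fin.ext h4)

open Classical in
/-- the changed oracle -/
noncomputable def chg {K j : ℕ} (A : Oracle) (a : Ix K j → Bool) : Oracle := fun y =>
  if h : ∃ t : Ix K j, y = str' t then a h.choose else A y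

theorem chg_str {K j : ℕ} (hK : K ≤ 2 ^ 2 ^ j) (A : Oracle) (a : Ix K j → Bool) (t : Ix K j) :
    chg A a (str' t) = a t := by
  have hex : ∃ t' : Ix K j, str' t = str' t' := ⟨t, rfl⟩
  unfold chg
  rw [dif_pos hex, ← str'_inj hK hex.choose_spec]

theorem chg_not {K j : ℕ} (A : Oracle) (a : Ix K j → Bool) {y : List Bool}
    (h : ¬ ∃ t : Ix K j, y = str' t) : chg A a y = A y := by
  unfold chg
  rw [dif_neg h]

/-- the planted table of a seed -/
theorem table_chg {K j : ℕ} (hK : K ≤ 2 ^ 2 ^ j) (A : Oracle) (a : Ix K j → Bool) (s : Fin K) :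
    table (2 * j) (fun x => chg A a (bitsOf (2 ^ j) s ++ x)) = List.ofFn (fun i => a (s, i)) := by
  apply List.ext_getElem
  · simp [table, length_cube]
  · intro i h1 h2
    simp only [table, List.getElem_map, List.getElem_ofFn]
    rw [List.length_ofFn] at h2
    exact chg_str hK A a (s, ⟨i, h2⟩)

/-! ### The requirement -/

/-- For some large `j`, with every advice: the algorithm accepts some planted table, or it accepts
less than three quarters of all tables. -/
def Rq (J : ℕ) (M : Alg) (p p' : Polynomial ℕ) (A : Oracle) : Prop :=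
  ∃ j ≥ J, ∀ h : List Bool, h.length ≤ p'.eval (2 ^ (2 * j)) →
    (∃ w : List Bool, w.length = 2 ^ j ∧
      AccN M p A (pairBits (table (2 * j) (fun x => A (w ++ x))) h)) ∨
    ¬ ∃ G : Finset (Fin (2 ^ (2 * j)) → Bool),
      (∀ T ∈ G, AccN M p A (pairBits (List.ofFn T) h)) ∧ (3 / 4 : ℝ) * 2 ^ 2 ^ (2 * j) ≤ G.card

/-- certificates -/
theorem accN_cert {K j : ℕ} (hK : K ≤ 2 ^ 2 ^ j) (M : Alg) (p : Polynomial ℕ) (A : Oracle)
    (x : List Bool) (a : Ix K j → Bool) (h : AccN M p (chg A a) x) :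
    ∃ Q : Finset (Ix K j), Q.card ≤ M.p.eval (2 * p.eval x.length + 1 + x.length) + 1 ∧
      ∀ a' : Ix K j → Bool, (∀ t ∈ Q, a' t = a t) → AccN M p (chg A a') x := by
  classical
  obtain ⟨w, hw, hout⟩ := h
  obtain ⟨qb, hqb⟩ := Alg.out_local M
  obtain ⟨Q, hQ1, -, hQ3⟩ := hqb (chg A a) (pairBits w x)
  refine ⟨univ.filter (fun t : Ix K j => str' t ∈ Q), ?_, fun a' ha' => ⟨w, hw, ?_⟩⟩
  · have h1 : (univ.filter (fun t : Ix K j => str' t ∈ Q)).card ≤ Q.card := by
      refine card_le_card_of_injOn (fun t : Ix K j => str' t) ?_ ?_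
      · intro x hx
        exact (mem_filter.1 hx).2
      · intro x _ y _ hxy
        exact str'_inj hK hxy
    have h2 : M.p.eval (pairBits w x).length ≤
        M.p.eval (2 * p.eval x.length + 1 + x.length) := by
      apply eval_mono
      rw [Pool.Agent.H620R2.Gauge.length_pairBits]
      omega
    omega
  · rw [← hout]
    refine hQ3 (chg A a') ?_
    intro q hq
    by_cases hex : ∃ t : Ix K j, q = str' t
    · obtain ⟨t, rfl⟩ := hex
      rw [chg_str hK, chg_str hK]
      exact ha' t (mem_filter.2 ⟨mem_univ _, hq⟩)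
    · rw [chg_not A a' hex, chg_not A a hex]

theorem small_num (L q : ℕ) :
    (2 : ℝ) ^ (L + 1) * (2 * q * (5 / 8) ^ (2 * (L + q + 2))) < 1 := by
  have h1 : (q : ℝ) < 2 ^ q := by exact_mod_cast Nat.lt_two_pow_self
  have h2 : ((5 : ℝ) / 8) ^ (2 * (L + q + 2)) ≤ (1 / 2) ^ (L + q + 2) := by
    rw [pow_mul]
    apply pow_le_pow_left₀ (by norm_num)
    norm_num
  have h3 : (0 : ℝ) < (1 / 2) ^ (L + q + 2) := by positivity
  calc (2 : ℝ) ^ (L + 1) * (2 * q * (5 / 8) ^ (2 * (L + q + 2)))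
      ≤ (2 : ℝ) ^ (L + 1) * (2 * q * (1 / 2) ^ (L + q + 2)) := by gcongr
    _ < (2 : ℝ) ^ (L + 1) * (2 * 2 ^ q * (1 / 2) ^ (L + q + 2)) := by gcongr
    _ = 1 := by
      have h4 : (2 : ℝ) ^ (L + 1) * (2 * 2 ^ q * (1 / 2) ^ (L + q + 2)) =
          (2 * (1 / 2)) ^ (L + q + 2) := by
        rw [mul_pow]
        ring
      rw [h4]
      norm_num

open Classical in
/-- **Some changes are bad for every advice.** -/
theorem exists_bad {j L q : ℕ} (M : Alg) (p : Polynomial ℕ) (A : Oracle) (hq : 1 ≤ q)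
    (hK : 2 * q * (2 * (L + q + 2)) ≤ 2 ^ 2 ^ j)
    (hb : ∀ x : List Bool, x.length ≤ 2 * 2 ^ (2 * j) + 1 + L →
      M.p.eval (2 * p.eval x.length + 1 + x.length) + 1 ≤ q) :
    ∃ a : Ix (2 * q * (2 * (L + q + 2))) j → Bool, ∀ h : List Bool, h.length ≤ L →
      (∃ s, AccN M p (chg A a) (pairBits (List.ofFn fun i => a (s, i)) h)) ∨
      ¬ ∃ G : Finset (Fin (2 ^ (2 * j)) → Bool),
        (∀ T ∈ G, AccN M p (chg A a) (pairBits (List.ofFn T) h)) ∧
        (3 / 4 : ℝ) * 2 ^ 2 ^ (2 * j) ≤ G.card := by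
  obtain ⟨K, hKe⟩ : ∃ K, K = 2 * q * (2 * (L + q + 2)) := ⟨_, rfl⟩
  rw [← hKe] at hK ⊢
  have hK0 : 0 < K := by
    rw [hKe]
    exact Nat.mul_pos (by omega) (by omega)
  have hdiv : K / (2 * q) = 2 * (L + q + 2) := by
    rw [hKe]
    exact Nat.mul_div_cancel_left _ (by omega)
  set P : ℕ → Fin (2 ^ (2 * j)) → Ix K j := fun s i => (⟨s % K, Nat.mod_lt _ hK0⟩, i) with hP
  have hPs : ∀ (s : ℕ) (hs : s < K) (i : Fin (2 ^ (2 * j))), P s i = (⟨s, hs⟩, i) := by
    intro s hs i
    rw [hP]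
    exact Prod.ext (Fin.ext (Nat.mod_eq_of_lt hs)) rfl
  have hlen : ∀ (T : Fin (2 ^ (2 * j)) → Bool) (h : List Bool), h.length ≤ L →
      (pairBits (List.ofFn T) h).length ≤ 2 * 2 ^ (2 * j) + 1 + L := by
    intro T h hh
    rw [Pool.Agent.H620R2.Gauge.length_pairBits, List.length_ofFn]
    omega
  obtain ⟨E, hE⟩ : ∃ E : List Bool → (Ix K j → Bool) → Prop, ∀ h a, E h a ↔
      ((∀ s < K, ¬ AccN M p (chg A a) (pairBits (List.ofFn fun i => a (P s i)) h)) ∧
      (∃ G : Finset (Fin (2 ^ (2 * j)) → Bool),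
        (∀ T ∈ G, AccN M p (chg A a) (pairBits (List.ofFn T) h)) ∧
        (3 / 4 : ℝ) * 2 ^ 2 ^ (2 * j) ≤ G.card)) := ⟨_, fun _ _ => Iff.rfl⟩
  have h1 : ∀ h ∈ (range (L + 1)).biUnion strsOf,
      Ex unif (fun a : Ix K j → Bool => if E h a then (1 : ℝ) else 0) ≤
        2 * q * (5 / 8) ^ (2 * (L + q + 2)) := by
    intro h hh
    have hl : h.length ≤ L := by
      rw [mem_biUnion] at hh
      obtain ⟨i, hi, h2⟩ := hh
      rw [mem_range] at hi
      unfold strsOf at h2
      rw [mem_image] at h2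
      obtain ⟨v, _, rfl⟩ := h2
      rw [length_bitsOf']
      omega
    have h3 := cmb (I := Ix K j) (m := 2 ^ (2 * j)) (q := q) (K := K) hq P
      (fun s hs s' hs' i i' he => by
        rw [hPs s hs, hPs s' hs'] at he
        have e1 := congrArg Prod.fst he
        have e2 := congrArg Prod.snd he
        exact ⟨congrArg Fin.val e1, e2⟩)
      (fun T a => AccN M p (chg A a) (pairBits (List.ofFn T) h))
      (fun T a hacc => by
        obtain ⟨Q, hQ, hQ'⟩ := accN_cert hK M p A _ a hacc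
        exact ⟨Q, hQ.trans (hb _ (hlen T h hl)), hQ'⟩)
    rw [hdiv] at h3
    refine le_trans (le_of_eq ?_) h3
    apply congrArg
    funext a
    by_cases h : E h a
    · rw [if_pos h, if_pos ((hE _ _).1 h)]
    · rw [if_neg h, if_neg (fun h' => h ((hE _ _).2 h'))]
  have h2 := Ex_union ((range (L + 1)).biUnion strsOf) E _ h1
    (fun a => ∃ h : List Bool, h.length ≤ L ∧ E h a)
    (by
      rintro a ⟨h, hl, h3⟩
      refine ⟨h, ?_, h3⟩
      rw [mem_biUnion]
      exact ⟨h.length, mem_range.2 (by omega), mem_strsOf h⟩)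
  have h3 : (((range (L + 1)).biUnion strsOf).card : ℝ) *
      (2 * q * (5 / 8) ^ (2 * (L + q + 2))) < 1 := by
    refine lt_of_le_of_lt ?_ (small_num L q)
    apply mul_le_mul_of_nonneg_right _ (by positivity)
    exact_mod_cast card_adv L
  have h5 : ∃ a : Ix K j → Bool, ¬ ∃ h : List Bool, h.length ≤ L ∧ E h a := by
    by_contra hno
    push Not at hno
    have h6 : Ex unif (fun _ : Ix K j → Bool => (1 : ℝ)) ≤
        Ex unif (fun a : Ix K j → Bool =>
          (if ∃ h : List Bool, h.length ≤ L ∧ E h a then (1 : ℝ) else 0)) := by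
      apply Ex_mono unif_nonneg
      intro a
      rw [if_pos (hno a)]
    rw [Ex_const V4.unif_sum] at h6
    linarith
  obtain ⟨a, ha⟩ := h5
  refine ⟨a, fun h hl => ?_⟩
  by_contra hno
  push Not at hno
  obtain ⟨hno1, G, hG1, hG2⟩ := hno
  apply ha
  refine ⟨h, hl, (hE h a).2 ⟨fun s hs => ?_, G, hG1, hG2⟩⟩
  have := hno1 ⟨s, hs⟩
  simp only [hPs s hs]
  exact this

end Pool.Agent.TH707.EO
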