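import Pool.Agent.TH707.EO.Stages
import Pool.Agent.TH707.PM.Main
import Pool.Agent.TH707.BP.Main

/-!
# Changes of every oracle: the minimisation problems
-/

set_option autoImplicit false

namespace Pool.Agent.TH707.EO

open Pool.Agent.NPC Pool.Agent.H620R2.Gauge Pool.Agent.H622R2 Pool.Agent.H622R2.Ckt
open Pool.Agent.H943R6.MC Pool.Agent.TH707.BP Filter
open Pool.Agent.W900.CH (Close)
open Pool.Agent.TH678.PC (few_adv dist_poly)

/-- **Polynomially many changes do not suffice.** -/
theorem few_all {g : ℕ → ℝ}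
    (hg : ∃ c : ℕ, ∀ᶠ n : ℕ in atTop, ∃ m ≥ n, g m ≤ (n : ℝ) ^ c) :
    ∃ O : Oracle, ∀ A, Close g O A → ∀ L, IsPSPACE A L → WithAdvice (IsP A) L := by
  obtain ⟨O, hO⟩ := few_adv
  exact ⟨O, fun A hA => hO A (dist_poly hg hA)⟩

/-- the tables of the circuits of size at most twice the root of the length, with property `Φ` -/
def LP (Φ : Circuit → Prop) (A : Oracle) : Set (List Bool) :=
  {T | pairBits T (List.replicate (2 * Nat.sqrt T.length) true) ∈ MinSize Φ A}

theorem wk_of_solvesGap {A : Oracle} {L : Set (List Bool)} (hL : SolvesGap A L) : Wk A 8 L := by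
  constructor
  · intro j hj w hw
    refine (hL (2 * j) (fun x => A (w ++ x))).1 ⟨askC w (2 * j), ?_, ?_⟩
    · unfold table
      apply List.map_congr_left
      intro x hx
      have h2 := eval_askC w A x
      rwa [length_cube_mem _ _ hx] at h2
    · have h1 := HRD.two_pow_ge hj
      rw [sqrt_two_pow, size_askC, hw]
      omega
  · intro j hj
    exact few_easyG hL hj

theorem wk_LP {Φ : Circuit → Prop} (hΦ : ∀ u n, Φ (askC u n)) (A : Oracle) :
    Wk A 8 (LP Φ A) := by
  classical
  constructor
  · intro j hj w hw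
    refine ⟨2 * j, 2 * Nat.sqrt (2 ^ (2 * j)), askC w (2 * j), hΦ _ _, ?_, ?_⟩
    · have h1 := HRD.two_pow_ge hj
      rw [sqrt_two_pow, size_askC, hw]
      omega
    · have h2 : table (2 * j) ((askC w (2 * j)).eval A) = table (2 * j) (fun x => A (w ++ x)) := by
        unfold table
        apply List.map_congr_left
        intro x hx
        have h2 := eval_askC w A x
        rwa [length_cube_mem _ _ hx] at h2
      rw [h2, H943R6.MC.length_table]
  · intro j hj
    refine le_trans ?_ (few_easyG (solvesGap_LG A) hj)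
    have h1 : (Finset.univ.filter (fun T : Fin (2 ^ (2 * j)) → Bool => List.ofFn T ∈ LP Φ A)) ⊆
        Finset.univ.filter (fun T : Fin (2 ^ (2 * j)) → Bool => List.ofFn T ∈ LG A) := by
      intro T hT
      rw [Finset.mem_filter] at hT ⊢
      refine ⟨hT.1, ?_⟩
      obtain ⟨n, s, C, -, h2, h3⟩ := hT.2
      rw [LG_eq]
      exact ⟨n, s, C, trivial, h2, h3⟩
    exact_mod_cast Finset.card_le_card h1

theorem adv_LP {Φ : Circuit → Prop} {A : Oracle} (h : WithAdvice (IsNP A) (MinSize Φ A)ᶜ) :
    WithAdvice (IsNP A) (LP Φ A)ᶜ := by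
  obtain ⟨L', a, p, h1, h2, h3⟩ := h
  have hpoly : Poly (fun T : List Bool =>
      pairBits T (List.replicate (2 * Nat.sqrt T.length) true)) := by
    refine poly_pairBits Poly.id ?_
    have h1 : UPoly (fun T : List Bool => 2 * Nat.sqrt T.length) :=
      UPoly.mul (UPoly.const 2) poly_sqrt
    refine (NPC.Poly.map (F := fun _ _ => true) h1 (NPC.Poly.const true)).congr fun T => ?_
    simp
  refine ⟨{z | pairBits (pairBits (unpair z).1 (List.replicate (2 * Nat.sqrt (unpair z).1.length)
      true)) (unpair z).2 ∈ L'}, fun N => a (2 * N + 2 * Nat.sqrt N + 1),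
    p.comp (Polynomial.C 4 * Polynomial.X + Polynomial.C 1),
    isNP_preimage h1 (g := fun z => pairBits (pairBits (unpair z).1
      (List.replicate (2 * Nat.sqrt (unpair z).1.length) true)) (unpair z).2)
        (poly_pairBits (hpoly.comp (Poly.fst poly_unpair)) (Poly.snd poly_unpair)),
    fun N => ?_, fun T => ?_⟩
  · refine (h2 _).trans ?_
    rw [Polynomial.eval_comp]
    apply eval_mono
    have := Nat.sqrt_le_self N
    simp only [Polynomial.eval_add, Polynomial.eval_mul, Polynomial.eval_C, Polynomial.eval_X]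
    omega
  · rw [Set.mem_ofPred_eq, unpair_pairBits]
    have h4 := h3 (pairBits T (List.replicate (2 * Nat.sqrt T.length) true))
    rw [A2.length_pairBits, List.length_replicate] at h4
    simp only
    rw [← h4, Set.mem_compl_iff, Set.mem_compl_iff]
    rfl

/-- `coNP/poly` and the problem for circuits with the property `Φ` -/
theorem not_min {Φ : Circuit → Prop} (hΦ : ∀ u n, Φ (askC u n)) {A : Oracle}
    (h : ∀ L, Wk A 8 L → ¬ WithAdvice (IsNP A) Lᶜ) : ¬ WithAdvice (IsNP A) (MinSize Φ A)ᶜ :=
  fun h1 => h _ (wk_LP hΦ A) (adv_LP h1)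

end Pool.Agent.TH707.EO
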