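import Pool.Agent.TH707.EO.Plant2
import Pool.Agent.TH707.OB.Event

/-!
# Planted pointers in an arbitrary oracle, against fixed sets of questions
-/

set_option autoImplicit false

namespace Pool.Agent.TH707.EO

open Pool.Agent.NPC Pool.Agent.H620R2.Gauge Pool.Agent.H622R2.Ckt Finset
open Pool.Agent.TH707.DP Pool.Agent.TH707.OB
open Pool.Agent.H943R6.MC (length_bitsOf')

variable {M l n : ℕ}

/-- the places of the bits: the pointers, and the final bits for all values of the pointers -/
abbrev Plc (M l : ℕ) : Type := (Fin M × Fin l) ⊕ (Fin M × (Fin l → Bool))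

/-- the blocks -/
def blk (a : Plc M l → Bool) : Fin M → J 1 l → Bool := fun c j =>
  match j with
  | none => a (Sum.inr (c, fun i => a (Sum.inl (c, i))))
  | some p => a (Sum.inl (c, p.2))

theorem adr_blk (a : Plc M l → Bool) (c : Fin M) :
    adr (blk a c) 1 = fun i => a (Sum.inl (c, i)) := by
  funext i
  simp [adr, blk]

theorem adr_blk_congr {a a' : Plc M l → Bool} (h : ∀ p, a' (Sum.inl p) = a (Sum.inl p))
    (c : Fin M) (k : ℕ) : adr (blk a' c) k = adr (blk a c) k := by
  cases k with
  | zero => rfl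
  | succ k =>
    funext i
    simp only [adr, blk]
    by_cases hk : k < 1
    · rw [dif_pos hk, dif_pos hk, h]
    · rw [dif_neg hk, dif_neg hk]

variable (hM : M ≤ 2 ^ n) (ht : 1 * l < 2 ^ n) (O : Oracle)

include hM ht in
theorem pl_blk_congr (hl : 1 ≤ l) {a a' : Plc M l → Bool} {q : List Bool}
    (h1 : ∀ p, a' (Sum.inl p) = a (Sum.inl p))
    (h2 : ∀ (c : Fin M) (w : Fin l → Bool), q = qst2 (bitsOf n c) n w (1 * l) →
      a' (Sum.inr (c, w)) = a (Sum.inr (c, w))) : pl n O (blk a') q = pl n O (blk a) q := by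
  by_cases hex : ∃ c : Fin M, ∃ r, r ≤ 1 * l ∧ q = qst2 (bitsOf n c) n (adr (blk a c) (r / l)) r
  · obtain ⟨c, r, hr, rfl⟩ := hex
    have e1 := pl_at hM ht O (blk a) c hr
    have e2 := pl_at hM ht O (blk a') c hr
    rw [adr_blk_congr h1] at e2
    rw [e1, e2]
    unfold bt
    by_cases hlt : r < 1 * l
    · rw [dif_pos hlt, dif_pos hlt, adr_blk_congr h1]
    · rw [dif_neg hlt, dif_neg hlt]
      have h4 : r = 1 * l := by omega
      show a' (Sum.inr (c, fun i => a' (Sum.inl (c, i)))) =
        a (Sum.inr (c, fun i => a (Sum.inl (c, i))))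
      have h5 : (fun i => a' (Sum.inl (c, i))) = fun i => a (Sum.inl (c, i)) :=
        funext fun i => h1 _
      rw [h5]
      apply h2
      rw [h4, Nat.mul_div_cancel _ (by omega), adr_blk]
  · have h3 : ∀ (c : Fin M) (r : ℕ), r ≤ 1 * l →
        q ≠ qst2 (bitsOf n c) n (adr (blk a c) (r / l)) r := fun c r hr he => hex ⟨c, r, hr, he⟩
    rw [pl_not O (blk a) h3, pl_not]
    intro c r hr
    rw [adr_blk_congr h1]
    exact h3 c r hr

open Classical in
/-- the places that matter -/
noncomputable def QZ (n : ℕ) (Z : Finset (List Bool)) : Finset (Plc M l) :=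
  (univ : Finset (Fin M × Fin l)).image Sum.inl ∪
  ((univ : Finset (Fin M × (Fin l → Bool))).filter fun p =>
    qst2 (bitsOf n p.1) n p.2 (1 * l) ∈ Z).image Sum.inr

include hM ht in
theorem card_QZ (Z : Finset (List Bool)) : (QZ n Z : Finset (Plc M l)).card ≤ M * l + Z.card := by
  classical
  unfold QZ
  refine (card_union_le _ _).trans (Nat.add_le_add ?_ ?_)
  · refine card_image_le.trans ?_
    rw [card_univ, Fintype.card_prod, Fintype.card_fin, Fintype.card_fin]
  · refine card_image_le.trans ?_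
    refine card_le_card_of_injOn (fun p => qst2 (bitsOf n p.1) n p.2 (1 * l)) ?_ ?_
    · intro p hp
      rw [mem_coe, mem_filter] at hp
      exact hp.2
    · rintro ⟨c, w⟩ _ ⟨c', w'⟩ _ h
      obtain ⟨h1, h2, -⟩ := qs_inj (lt_of_lt_of_le c.2 hM) (lt_of_lt_of_le c'.2 hM) ht ht h
      exact Prod.ext (Fin.ext h1) h2

theorem card_filter_inst {α : Type*} (s : Finset α) (p : α → Prop) (i1 i2 : DecidablePred p) :
    (@Finset.filter α p i1 s).card = (@Finset.filter α p i2 s).card := by
  have h : i1 = i2 := Subsingleton.elim _ _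
  rw [h]

open Classical in
include hM ht in
/-- **Many devices, each with a fixed set of questions.** -/
theorem exists_plant_obl {ι : Type*} (F : Finset ι) (ev : ι → Fin M → Oracle → Bool)
    (Z : ι → Finset (List Bool)) (hl : 1 ≤ l)
    (hZ : ∀ i ∈ F, 2 * (M * l + (Z i).card) ≤ 2 ^ l) (hF : F.card * 3 ^ M < 4 ^ M)
    (hev : ∀ i ∈ F, ∀ c A A', (∀ q ∈ Z i, A' q = A q) → ev i c A' = ev i c A) :
    ∃ y : Fin M → J 1 l → Bool, ∀ i ∈ F, ∃ c,
      ev i c (pl n O y) ≠ (hard2 n l 1).eval (pl n O y) (bitsOf n c) := by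
  by_contra hno
  push Not at hno
  set X := Fintype.card (Plc M l) with hX
  have h1 : (univ : Finset (Plc M l → Bool)) ⊆ F.biUnion fun i =>
      univ.filter fun a : Plc M l → Bool => ∀ c : Fin M, ev i c (pl n O (blk a)) =
        a (Sum.inr (c, ptrV (fun p => Sum.inl p) a c)) := by
    intro a _
    obtain ⟨i, hi, h2⟩ := hno (blk a)
    rw [mem_biUnion]
    refine ⟨i, hi, mem_filter.2 ⟨mem_univ _, fun c => ?_⟩⟩
    have h3 := h2 c
    rw [eval_pl hM ht O hl] at h3
    exact h3
  have h2 := (card_le_card h1).trans card_biUnion_le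
  rw [card_univ, Fintype.card_fun, Fintype.card_bool, ← hX] at h2
  have hone : ∀ i ∈ F, (univ.filter fun a : Plc M l → Bool => ∀ c : Fin M,
      ev i c (pl n O (blk a)) = a (Sum.inr (c, ptrV (fun p => Sum.inl p) a c))).card * 4 ^ M ≤
      3 ^ M * 2 ^ X := by
    intro i hi
    have h3 := oblivious_bound (I := Plc M l) (ι := Fin M) (l := l) (fun p => Sum.inl p)
      (fun p => Sum.inr p) Sum.inl_injective Sum.inr_injective (fun p q => by simp)
      (QZ n (Z i)) ((Nat.mul_le_mul_left 2 (card_QZ hM ht (Z i))).trans (hZ i hi))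
      (fun c a => ev i c (pl n O (blk a))) (by
        intro c a a' h
        apply hev i hi
        intro q hq
        apply pl_blk_congr hM ht O hl
        · intro p
          apply h
          unfold QZ
          rw [mem_union]
          exact Or.inl (mem_image_of_mem _ (mem_univ _))
        · rintro c' w rfl
          apply h
          unfold QZ
          rw [mem_union]
          exact Or.inr (mem_image_of_mem _ (mem_filter.2 ⟨mem_univ _, hq⟩)))
    rw [Fintype.card_fin] at h3
    exact le_trans (Nat.mul_le_mul_right _ (le_of_eq (card_filter_inst _ _ _ _))) h3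
  have h3 : 2 ^ X * 4 ^ M ≤ F.card * 3 ^ M * 2 ^ X := by
    calc 2 ^ X * 4 ^ M ≤ (∑ i ∈ F, (univ.filter fun a : Plc M l → Bool => ∀ c : Fin M,
          ev i c (pl n O (blk a)) = a (Sum.inr (c, ptrV (fun p => Sum.inl p) a c))).card) *
            4 ^ M := Nat.mul_le_mul_right _ h2
      _ = ∑ i ∈ F, (univ.filter fun a : Plc M l → Bool => ∀ c : Fin M,
          ev i c (pl n O (blk a)) = a (Sum.inr (c, ptrV (fun p => Sum.inl p) a c))).card *
            4 ^ M := sum_mul _ _ _
      _ ≤ ∑ _i ∈ F, 3 ^ M * 2 ^ X := sum_le_sum hone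
      _ = F.card * 3 ^ M * 2 ^ X := by rw [sum_const, smul_eq_mul, mul_assoc]
  have h4 : 4 ^ M ≤ F.card * 3 ^ M := by
    have h5 : 4 ^ M * 2 ^ X ≤ F.card * 3 ^ M * 2 ^ X := by
      rw [mul_comm (4 ^ M)]
      exact h3
    exact Nat.le_of_mul_le_mul_right h5 (by positivity)
  omega

end Pool.Agent.TH707.EO
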