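import Pool.Agent.TH707.EO.Walk
import Pool.Agent.TH707.DP.Event2
import Pool.Agent.TH678.SW.Ins
import Pool.Agent.H943R6.MC.Base

/-!
# Planted walks in an arbitrary oracle
-/

set_option autoImplicit false

namespace Pool.Agent.TH707.EO

open Pool.Agent.NPC Pool.Agent.H620R2.Gauge Pool.Agent.H622R2.Ckt Finset
open Pool.Agent.TH707.DP
open Pool.Agent.H943R6.MC (length_bitsOf')

variable {M t l n : ℕ}

/-- the bit with number `r` of a block -/
def bt (x : J t l → Bool) (r : ℕ) : Bool :=
  if h : r < t * l then adr x (r / l + 1) ⟨r % l, Nat.mod_lt _ (by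
    rcases Nat.eq_zero_or_pos l with h0 | h0
    · rw [h0, Nat.mul_zero] at h; omega
    · exact h0)⟩ else x none

open Classical in
/-- the planted oracle -/
noncomputable def pl (n : ℕ) (O : Oracle) (y : Fin M → J t l → Bool) : Oracle := fun q =>
  if h : ∃ c : Fin M, ∃ r, r ≤ t * l ∧ q = qst2 (bitsOf n c) n (adr (y c) (r / l)) r then
    bt (y h.choose) h.choose_spec.choose else O q

theorem qs_inj {c c' r r' : ℕ} {w w' : Fin l → Bool} (hc : c < 2 ^ n) (hc' : c' < 2 ^ n)
    (hr : r < 2 ^ n) (hr' : r' < 2 ^ n)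
    (h : qst2 (bitsOf n c) n w r = qst2 (bitsOf n c') n w' r') : c = c' ∧ w = w' ∧ r = r' := by
  have h1 : bitsOf n c = bitsOf n c' := by
    have h2 := congrArg (List.take n) h
    unfold qst2 at h2
    rwa [List.append_assoc, List.append_assoc, List.take_left' (length_bitsOf' _ _),
      List.take_left' (length_bitsOf' _ _)] at h2
  have h3 := Pool.Agent.TH678.SW.bitsOf_inj _ _ _ hc hc' h1
  subst h3
  obtain ⟨h4, h5⟩ := qst2_inj hr hr' h
  exact ⟨rfl, h4, h5⟩

variable (hM : M ≤ 2 ^ n) (ht : t * l < 2 ^ n) (O : Oracle)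

include hM ht in
theorem pl_at (y : Fin M → J t l → Bool) (c : Fin M) {r : ℕ} (hr : r ≤ t * l) :
    pl n O y (qst2 (bitsOf n c) n (adr (y c) (r / l)) r) = bt (y c) r := by
  have hex : ∃ c' : Fin M, ∃ r', r' ≤ t * l ∧ qst2 (bitsOf n c) n (adr (y c) (r / l)) r =
      qst2 (bitsOf n c') n (adr (y c') (r' / l)) r' := ⟨c, r, hr, rfl⟩
  unfold pl
  rw [dif_pos hex]
  obtain ⟨h1, h2⟩ := hex.choose_spec.choose_spec
  obtain ⟨h3, -, h4⟩ := qs_inj (lt_of_lt_of_le c.2 hM) (lt_of_lt_of_le hex.choose.2 hM)
    (by omega) (by omega) h2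
  rw [← h4, ← Fin.ext h3]

theorem pl_not (y : Fin M → J t l → Bool) {q : List Bool}
    (h : ∀ (c : Fin M) (r : ℕ), r ≤ t * l → q ≠ qst2 (bitsOf n c) n (adr (y c) (r / l)) r) :
    pl n O y q = O q := by
  unfold pl
  rw [dif_neg]
  rintro ⟨c, r, h1, h2⟩
  exact h c r h1 h2

include hM ht in
theorem pl_congr (y y' : Fin M → J t l → Bool) {q : List Bool}
    (h : ∀ c : Fin M, q.take n = bitsOf n c → y' c = y c) : pl n O y' q = pl n O y q := by
  have htake : ∀ (c : Fin M) (w : Fin l → Bool) (r : ℕ),
      (qst2 (bitsOf n c) n w r).take n = bitsOf n c := by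
    intro c w r
    unfold qst2
    rw [List.append_assoc, List.take_left' (length_bitsOf' _ _)]
  by_cases hex : ∃ c : Fin M, ∃ r, r ≤ t * l ∧ q = qst2 (bitsOf n c) n (adr (y c) (r / l)) r
  · obtain ⟨c, r, hr, rfl⟩ := hex
    have h1 := h c (htake _ _ _)
    rw [pl_at hM ht O y c hr, ← h1, pl_at hM ht O y' c hr]
  · have h1 : ∀ (c : Fin M) (r : ℕ), r ≤ t * l →
        q ≠ qst2 (bitsOf n c) n (adr (y c) (r / l)) r := fun c r hr he => hex ⟨c, r, hr, he⟩
    rw [pl_not O y h1, pl_not]
    rintro c r hr rfl
    have h2 := h c (htake _ _ _)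
    rw [h2] at h1
    exact h1 c r hr rfl

include hM ht in
theorem walk2_pl (y : Fin M → J t l → Bool) (c : Fin M) : ∀ k ≤ t,
    walk2 (pl n O y) (bitsOf n c) n l k = List.ofFn (adr (y c) k) := by
  intro k
  induction k with
  | zero =>
    intro _
    show List.replicate l false = List.ofFn (fun _ : Fin l => false)
    rw [List.ofFn_const]
  | succ k ih =>
    intro hk
    have ih := ih (by omega)
    show (List.range l).map (fun i => pl n O y (bitsOf n c ++ walk2 (pl n O y) (bitsOf n c) n l k ++
      bitsL n (k * l + i))) = _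
    rw [ih]
    apply List.ext_getElem
    · simp
    · intro i h1 h2
      rw [List.length_ofFn] at h2
      rw [List.getElem_map, List.getElem_range, List.getElem_ofFn]
      have h3 : (k * l + i) / l = k := by
        rw [Nat.add_comm, Nat.add_mul_div_right _ _ (by omega), Nat.div_eq_of_lt h2, zero_add]
      have h4 : k * l + i < t * l := by
        have h5 : (k + 1) * l ≤ t * l := Nat.mul_le_mul_right _ hk
        have h6 : (k + 1) * l = k * l + l := by ring
        omega
      have h5 := pl_at hM ht O y c h4.le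
      rw [h3] at h5
      refine Eq.trans h5 ?_
      unfold bt
      rw [dif_pos h4]
      simp only [h3]
      congr 1
      exact Fin.ext (by
        simp only
        rw [Nat.add_comm, Nat.add_mul_mod_self_right, Nat.mod_eq_of_lt h2])

include hM ht in
theorem eval_pl (hl : 1 ≤ l) (y : Fin M → J t l → Bool) (c : Fin M) :
    (hard2 n l t).eval (pl n O y) (bitsOf n c) = y c none := by
  rw [hard2_eval _ (length_bitsOf' _ _) hl, walk2_pl hM ht O y c t le_rfl]
  have h1 := pl_at hM ht O y c (r := t * l) le_rfl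
  rw [Nat.mul_div_cancel _ (by omega)] at h1
  refine Eq.trans h1 ?_
  unfold bt
  rw [dif_neg (by omega)]

/-! ### One block -/

/-- the bits of the block `c` are replaced -/
def upd (c : Fin M) (x : J t l → Bool) (a : Fin M × J t l → Bool) : Fin M × J t l → Bool :=
  fun p => if p.1 = c then x p.2 else a p

/-- the planted oracle, as a function of all bits -/
noncomputable def plI (n : ℕ) (O : Oracle) (a : Fin M × J t l → Bool) : Oracle :=
  pl n O (fun c p => a (c, p))

theorem sum_upd (c : Fin M) (F : (Fin M × J t l → Bool) → ℕ) :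
    ∑ a : Fin M × J t l → Bool, ∑ x : J t l → Bool, F (upd c x a) =
      2 ^ Fintype.card (J t l) * ∑ a : Fin M × J t l → Bool, F a := by
  let e : Equiv.Perm ((Fin M × J t l → Bool) × (J t l → Bool)) :=
    Function.Involutive.toPerm (fun p => (upd c p.2 p.1, fun j => p.1 (c, j))) (by
      rintro ⟨a, x⟩
      refine Prod.ext ?_ ?_
      · funext p
        simp only [upd]
        by_cases hp : p.1 = c
        · rw [if_pos hp, ← hp]
        · rw [if_neg hp, if_neg hp]
      · funext j
        simp [upd])
  have h1 : ∑ a : Fin M × J t l → Bool, ∑ x : J t l → Bool, F (upd c x a) =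
      ∑ p : (Fin M × J t l → Bool) × (J t l → Bool), F ((e p).1) :=
    (Fintype.sum_prod_type (fun p : (Fin M × J t l → Bool) × (J t l → Bool) =>
      F (upd c p.2 p.1))).symm
  rw [h1, Equiv.sum_comp e (fun p => F p.1), Fintype.sum_prod_type, Finset.mul_sum]
  refine Finset.sum_congr rfl fun a _ => ?_
  simp

open Classical in
/-- level and address of a question of the block `c` -/
noncomputable def node (n t : ℕ) (c : Fin M) (q : List Bool) : Option (ℕ × (Fin l → Bool)) :=
  if h : ∃ w : Fin l → Bool, ∃ r, r ≤ t * l ∧ q = qst2 (bitsOf n c) n w r then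
    some (h.choose_spec.choose / l, h.choose) else none

include hM ht in
theorem node_qs (c : Fin M) (w : Fin l → Bool) {r : ℕ} (hr : r ≤ t * l) :
    node n t c (qst2 (bitsOf n c) n w r) = some (r / l, w) := by
  have hex : ∃ w' : Fin l → Bool, ∃ r', r' ≤ t * l ∧
      qst2 (bitsOf n c) n w r = qst2 (bitsOf n c) n w' r' := ⟨w, r, hr, rfl⟩
  unfold node
  rw [dif_pos hex]
  obtain ⟨h1, h2⟩ := hex.choose_spec.choose_spec
  obtain ⟨-, h3, h4⟩ := qs_inj (lt_of_lt_of_le c.2 hM) (lt_of_lt_of_le c.2 hM)
    (by omega) (by omega) h2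
  rw [← h4, ← h3]

theorem node_le (hl : 1 ≤ l) (c : Fin M) (q : List Bool) (k : ℕ) (w : Fin l → Bool)
    (h : node n t c q = some (k, w)) : k ≤ t := by
  unfold node at h
  split_ifs at h with hex
  rw [Option.some.injEq, Prod.mk.injEq] at h
  rw [← h.1]
  obtain ⟨h1, -⟩ := hex.choose_spec.choose_spec
  calc hex.choose_spec.choose / l ≤ t * l / l := Nat.div_le_div_right h1
    _ = t := Nat.mul_div_cancel _ (by omega)

include hM ht in
theorem same_pl (hl : 1 ≤ l) (c : Fin M) (a : Fin M × J t l → Bool) (x x' : J t l → Bool)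
    (q : List Bool) (h : Same (node n t c) x x' q) :
    plI n O (upd c x' a) q = plI n O (upd c x a) q := by
  have hself : ∀ x : J t l → Bool, (fun p => upd c x a (c, p)) = x := by
    intro x
    funext p
    simp [upd]
  have hoth : ∀ (x : J t l → Bool) (c' : Fin M), c' ≠ c →
      (fun p => upd c x a (c', p)) = fun p => a (c', p) := by
    intro x c' hc'
    funext p
    simp [upd, hc']
  unfold plI
  by_cases hex : ∃ w : Fin l → Bool, ∃ r, r ≤ t * l ∧ q = qst2 (bitsOf n c) n w r
  · obtain ⟨w, r, hr, rfl⟩ := hex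
    obtain ⟨h1, h2⟩ := h _ _ (node_qs hM ht c w hr)
    by_cases hw : w = adr x (r / l)
    · have h3 := h2 hw
      have hw' := h1.1 hw
      have e1 := pl_at hM ht O (fun c p => upd c x a (c, p)) c hr
      have e1 : pl n O (fun c' p => upd c x a (c', p)) (qst2 (bitsOf n c) n (adr x (r / l)) r) =
          bt x r := by
        have := pl_at hM ht O (fun c' p => upd c x a (c', p)) c hr
        simp only [hself] at this
        exact this
      have e2 : pl n O (fun c' p => upd c x' a (c', p)) (qst2 (bitsOf n c) n (adr x' (r / l)) r) =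
          bt x' r := by
        have := pl_at hM ht O (fun c' p => upd c x' a (c', p)) c hr
        simp only [hself] at this
        exact this
      rw [← hw] at e1
      rw [← hw'] at e2
      rw [e1, e2]
      unfold bt
      by_cases hlt : r < t * l
      · have h4 : r / l < t := (Nat.div_lt_iff_lt_mul (by omega)).2 hlt
        rw [if_pos h4] at h3
        rw [dif_pos hlt, dif_pos hlt, h3]
      · have h4 : r = t * l := by omega
        have h5 : ¬ r / l < t := by
          rw [h4, Nat.mul_div_cancel _ (by omega)]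
          omega
        rw [if_neg h5] at h3
        rw [dif_neg hlt, dif_neg hlt, h3]
    · have hw' : w ≠ adr x' (r / l) := fun he => hw (h1.2 he)
      rw [pl_not, pl_not]
      · intro c' r' hr' he
        obtain ⟨e1, e2, e3⟩ := qs_inj (lt_of_lt_of_le c.2 hM) (lt_of_lt_of_le c'.2 hM)
          (by omega) (by omega) he
        have e4 : c' = c := Fin.ext e1.symm
        subst e4
        rw [hself, ← e3] at e2
        exact hw e2
      · intro c' r' hr' he
        obtain ⟨e1, e2, e3⟩ := qs_inj (lt_of_lt_of_le c.2 hM) (lt_of_lt_of_le c'.2 hM)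
          (by omega) (by omega) he
        have e4 : c' = c := Fin.ext e1.symm
        subst e4
        rw [hself, ← e3] at e2
        exact hw' e2
  · by_cases hex2 : ∃ c' : Fin M, c' ≠ c ∧ ∃ r, r ≤ t * l ∧
        q = qst2 (bitsOf n c') n (adr (fun p => a (c', p)) (r / l)) r
    · obtain ⟨c', hc', r, hr, rfl⟩ := hex2
      have e1 := pl_at hM ht O (fun c' p => upd c x a (c', p)) c' hr
      have e2 := pl_at hM ht O (fun c' p => upd c x' a (c', p)) c' hr
      simp only [hoth _ _ hc'] at e1 e2
      rw [e1, e2]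
    · rw [pl_not, pl_not]
      · intro c' r' hr' he
        by_cases hc' : c' = c
        · subst hc'
          exact hex ⟨_, r', hr', he⟩
        · rw [hoth _ _ hc'] at he
          exact hex2 ⟨c', hc', r', hr', he⟩
      · intro c' r' hr' he
        by_cases hc' : c' = c
        · subst hc'
          exact hex ⟨_, r', hr', he⟩
        · rw [hoth _ _ hc'] at he
          exact hex2 ⟨c', hc', r', hr', he⟩

end Pool.Agent.TH707.EO
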