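import Pool.Agent.TH707.EO.Plant

/-!
# Planted walks in an arbitrary oracle, against many devices
-/

set_option autoImplicit false

namespace Pool.Agent.TH707.EO

open Pool.Agent.NPC Pool.Agent.H620R2.Gauge Pool.Agent.H622R2.Ckt Finset
open Pool.Agent.TH707.DP
open Pool.Agent.H943R6.MC (length_bitsOf')

variable {M t l n : ℕ}

/-- The device `ev` asks at most `r` questions in at most `t` rounds. -/
def Few (t r : ℕ) (ev : Oracle → Bool) : Prop :=
  ∃ R : SRounds r, ∀ A A' : Oracle, (∀ q ∈ R.Q t A, A' q = A q) → ev A' = ev A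

variable (hM : M ≤ 2 ^ n) (ht : t * l < 2 ^ n) (O : Oracle)

theorem mem_cube_upd {S : Finset (Fin M × J t l)} {b a : Fin M × J t l → Bool} {c : Fin M}
    (hS : ∀ p ∈ S, p.1 ≠ c) (x : J t l → Bool) : upd c x a ∈ cube S b ↔ a ∈ cube S b := by
  rw [mem_cube, mem_cube]
  constructor
  · intro h p hp
    have h1 := h p hp
    unfold upd at h1
    rwa [if_neg (hS p hp)] at h1
  · intro h p hp
    unfold upd
    rw [if_neg (hS p hp)]
    exact h p hp

open Classical in
include hM ht in
/-- One block: the device does not find the final bit, whatever is known about the others. -/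
theorem block_bound (hl : 1 ≤ l) {r : ℕ} (hts : 4 * (t * r) ≤ 2 ^ l) (c : Fin M)
    (ev : Oracle → Bool) (hev : Few t r ev) (S : Finset (Fin M × J t l))
    (b : Fin M × J t l → Bool) (hS : ∀ p ∈ S, p.1 ≠ c) :
    ((cube S b).filter fun a => ev (plI n O a) = a (c, none)).card * 4 ≤
      3 * (cube S b).card := by
  obtain ⟨R, hR⟩ := hev
  set m := Fintype.card (J t l) with hm
  have h1 : ∀ a : Fin M × J t l → Bool,
      (univ.filter fun x : J t l → Bool => ev (plI n O (upd c x a)) = x none).card * 4 ≤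
        3 * 2 ^ m := by
    intro a
    have h2 := walk_bound R (fun x => plI n O (upd c x a)) (node n t c)
      (fun x x' q h => same_pl hM ht O hl c a x x' q h) (fun q k w h => node_le hl c q k w h)
      ev hR
    rw [← hm] at h2
    generalize (univ.filter fun x : J t l → Bool =>
      ev (plI n O (upd c x a)) = x none).card = X at h2 ⊢
    have h4 : 2 * (2 ^ l + 2 * (t * r)) ≤ 3 * 2 ^ l := by omega
    have h5 : X * 4 * 2 ^ l ≤ 3 * 2 ^ m * 2 ^ l := by
      calc X * 4 * 2 ^ l = 2 * (X * (2 * 2 ^ l)) := by ring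
        _ ≤ 2 * ((2 ^ l + 2 * (t * r)) * 2 ^ m) := Nat.mul_le_mul_left _ h2
        _ = 2 * (2 ^ l + 2 * (t * r)) * 2 ^ m := by ring
        _ ≤ 3 * 2 ^ l * 2 ^ m := Nat.mul_le_mul_right _ h4
        _ = 3 * 2 ^ m * 2 ^ l := by ring
    exact Nat.le_of_mul_le_mul_right h5 (by positivity)
  have h2 := sum_upd c (fun a : Fin M × J t l → Bool =>
    if a ∈ cube S b ∧ ev (plI n O a) = a (c, none) then 1 else 0)
  have h3 : ∀ a : Fin M × J t l → Bool, (∑ x : J t l → Bool,
      if upd c x a ∈ cube S b ∧ ev (plI n O (upd c x a)) = upd c x a (c, none) then 1 else 0) * 4 ≤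
      (if a ∈ cube S b then 1 else 0) * (3 * 2 ^ m) := by
    intro a
    by_cases ha : a ∈ cube S b
    · rw [if_pos ha, one_mul]
      refine le_trans (le_of_eq ?_) (h1 a)
      rw [card_filter]
      congr 1
      refine sum_congr rfl fun x _ => ?_
      have h4 : upd c x a (c, none) = x none := by simp [upd]
      rw [h4]
      by_cases h5 : ev (plI n O (upd c x a)) = x none
      · rw [if_pos ⟨(mem_cube_upd hS x).2 ha, h5⟩, if_pos h5]
      · rw [if_neg (fun h => h5 h.2), if_neg h5]
    · rw [if_neg ha, zero_mul]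
      refine le_of_eq ?_
      have h4 : ∀ x : J t l → Bool, (if upd c x a ∈ cube S b ∧
          ev (plI n O (upd c x a)) = upd c x a (c, none) then 1 else 0) = 0 := by
        intro x
        rw [if_neg fun h => ha ((mem_cube_upd hS x).1 h.1)]
      rw [sum_congr rfl fun x _ => h4 x]
      simp
  have h4 : (∑ a : Fin M × J t l → Bool, ∑ x : J t l → Bool,
      if upd c x a ∈ cube S b ∧ ev (plI n O (upd c x a)) = upd c x a (c, none) then 1 else 0) * 4 ≤
      (cube S b).card * (3 * 2 ^ m) := by
    rw [sum_mul]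
    refine (sum_le_sum fun a _ => h3 a).trans (le_of_eq ?_)
    rw [← sum_mul]
    congr 1
    rw [← card_filter]
    congr 1
    ext a
    simp
  rw [h2] at h4
  have h5 : ((cube S b).filter fun a => ev (plI n O a) = a (c, none)).card =
      ∑ a : Fin M × J t l → Bool,
        (if a ∈ cube S b ∧ ev (plI n O a) = a (c, none) then 1 else 0) := by
    rw [← card_filter]
    congr 1
    ext a
    simp
  rw [h5]
  generalize (∑ a : Fin M × J t l → Bool,
    (if a ∈ cube S b ∧ ev (plI n O a) = a (c, none) then 1 else 0)) = Y at h4 ⊢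
  have h6 : Y * 4 * 2 ^ m ≤ 3 * (cube S b).card * 2 ^ m := by
    calc Y * 4 * 2 ^ m = 2 ^ m * Y * 4 := by ring
      _ ≤ (cube S b).card * (3 * 2 ^ m) := h4
      _ = 3 * (cube S b).card * 2 ^ m := by ring
  exact Nat.le_of_mul_le_mul_right h6 (by positivity)

theorem card_J : Fintype.card (J t l) = t * l + 1 := by
  rw [Fintype.card_option, Fintype.card_prod, Fintype.card_fin, Fintype.card_fin]

open Classical in
/-- the bits of the blocks of the questions `Z`, and of the block `c` -/
noncomputable def Wb (n : ℕ) (c : Fin M) (Z : Finset (List Bool)) : Finset (Fin M × J t l) :=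
  (univ.filter fun c' : Fin M => c' = c ∨ ∃ q ∈ Z, q.take n = bitsOf n c') ×ˢ univ

include hM in
theorem card_Wb (c : Fin M) (Z : Finset (List Bool)) :
    (Wb n c Z : Finset (Fin M × J t l)).card ≤ (Z.card + 1) * (t * l + 1) := by
  classical
  unfold Wb
  rw [card_product, card_univ, card_J]
  refine Nat.mul_le_mul_right _ ?_
  have h1 : (univ.filter fun c' : Fin M => c' = c ∨ ∃ q ∈ Z, q.take n = bitsOf n c') ⊆
      insert c (univ.filter fun c' : Fin M => ∃ q ∈ Z, q.take n = bitsOf n c') := by
    intro c' hc'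
    rw [mem_filter] at hc'
    rw [mem_insert, mem_filter]
    rcases hc'.2 with h | h
    · exact Or.inl h
    · exact Or.inr ⟨mem_univ _, h⟩
  refine (card_le_card h1).trans ((card_insert_le _ _).trans ?_)
  refine Nat.succ_le_succ ?_
  refine le_trans ?_ (card_image_le (s := Z) (f := List.take n))
  refine card_le_card_of_injOn (fun c' : Fin M => bitsOf n c') ?_ ?_
  · intro c' hc'
    rw [mem_coe, mem_filter] at hc'
    obtain ⟨-, q, hq, h⟩ := hc'
    rw [mem_coe, mem_image]
    exact ⟨q, hq, h⟩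
  · intro c' _ c'' _ h
    exact Fin.ext (Pool.Agent.TH678.SW.bitsOf_inj _ _ _ (lt_of_lt_of_le c'.2 hM)
      (lt_of_lt_of_le c''.2 hM) h)

include hM ht in
theorem agree_Wb {c : Fin M} {Z : Finset (List Bool)} {a a' : Fin M × J t l → Bool}
    (h : ∀ p ∈ (Wb n c Z : Finset (Fin M × J t l)), a' p = a p) :
    ∀ q ∈ Z, plI n O a' q = plI n O a q := by
  classical
  intro q hq
  unfold plI
  apply pl_congr hM ht
  intro c' hc'
  funext p
  apply h
  unfold Wb
  rw [mem_product]
  exact ⟨mem_filter.2 ⟨mem_univ _, Or.inr ⟨q, hq, hc'⟩⟩, mem_univ _⟩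

/-- the device finds the final bit of the block `c` -/
def AgB (n : ℕ) (O : Oracle) (ev : Fin M → Oracle → Bool) (c : Fin M)
    (a : Fin M × J t l → Bool) : Prop := ev c (plI n O a) = a (c, none)

/-- the device finds all final bits -/
def AgA (n : ℕ) (O : Oracle) (ev : Fin M → Oracle → Bool) (a : Fin M × J t l → Bool) : Prop :=
  ∀ c, AgB n O ev c a

/-- the numbers of the blocks -/
def Key (M : ℕ) : Type := Fin M

/-- all numbers -/
def keyF (M : ℕ) : Finset (Key M) := (univ : Finset (Fin M))

theorem card_keyF (M : ℕ) : (keyF M).card = M := Finset.card_fin M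

theorem mem_keyF {M : ℕ} (c : Key M) : c ∈ keyF M := Finset.mem_univ (α := Fin M) c

theorem card_filter_mono {α : Type*} [Fintype α] (p q : α → Prop) [DecidablePred p]
    [DecidablePred q] (h : ∀ a, p a → q a) : (univ.filter p).card ≤ (univ.filter q).card :=
  card_le_card fun a ha => mem_filter.2 ⟨mem_univ _, h a (mem_filter.1 ha).2⟩

open Classical in
include hM ht in
/-- One device. -/
theorem device_bound (hl : 1 ≤ l) {r s m : ℕ} (hts : 4 * (t * r) ≤ 2 ^ l)
    (hm : m * ((s + 1) * (t * l + 1) + 1) ≤ M) (ev : Fin M → Oracle → Bool)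
    (hev : ∀ c, Few t r (ev c)) (hev' : ∀ c, ∃ t', Few t' s (ev c)) :
    (univ.filter fun a : Fin M × J t l → Bool => AgA n O ev a).card *
      4 ^ m ≤ 3 ^ m * 2 ^ (Fintype.card (Fin M × J t l)) := by
  choose T R hR using hev'
  have h := seq_bound (U := Key M) (own := fun p : Fin M × J t l => p.1)
    (w := (s + 1) * (t * l + 1)) (E := fun (c : Key M) a => AgB n O ev c a)
    (W := fun c a => Wb n c ((R c).Q (T c) (plI n O a))) (T := keyF M) ?_ ?_ ?_ m
    (keyF M) ∅
    (fun _ => false) (Subset.refl _) (fun u _ p hp => absurd hp (notMem_empty _))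
    (by rw [card_keyF]; exact hm)
  · have h1 : cube (∅ : Finset (Fin M × J t l)) (fun _ => false) = univ := by
      ext a
      rw [mem_cube]
      exact ⟨fun _ => mem_univ _, fun _ p hp => absurd hp (notMem_empty _)⟩
    rw [h1, card_univ, Fintype.card_fun, Fintype.card_bool] at h
    exact le_trans (Nat.mul_le_mul_right _ (@card_filter_mono _ _ _ _ _ _
      fun a ha c _ => ha c)) h
  · intro (c : Fin M) _ a a' hW
    have h1 := agree_Wb hM ht O hW
    have h2 : ∀ j ≤ T c, (R c).Q j (plI n O a') = (R c).Q j (plI n O a) := by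
      intro j hj
      cases j with
      | zero => rw [(R c).zero, (R c).zero]
      | succ j =>
        apply (R c).step
        intro q hq
        exact h1 q ((R c).mono' _ (by omega) hq)
    refine ⟨?_, ?_⟩
    · rw [h2 (T c) le_rfl]
    · have h3 := hR c _ _ h1
      have h4 : a' (c, none) = a (c, none) := by
        apply hW
        unfold Wb
        rw [mem_product]
        exact ⟨mem_filter.2 ⟨mem_univ _, Or.inl rfl⟩, mem_univ _⟩
      unfold AgB
      rw [h3, h4]
  · intro (c : Fin M) _ a
    refine (card_Wb hM c _).trans ?_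
    exact Nat.mul_le_mul_right _ (Nat.add_le_add_right ((R c).card _ _) 1)
  · intro (c : Fin M) _ S b hS
    refine le_trans (Nat.mul_le_mul_right _ (card_le_card ?_))
      (block_bound hM ht O hl hts c (ev c) (hev c) S b hS)
    intro a ha
    rw [mem_filter] at ha ⊢
    exact ha

open Classical in
include hM ht in
/-- **Many devices.** -/
theorem exists_plant {ι : Type*} (F : Finset ι) (ev : ι → Fin M → Oracle → Bool) (hl : 1 ≤ l)
    {r s m : ℕ} (hts : 4 * (t * r) ≤ 2 ^ l) (hm : m * ((s + 1) * (t * l + 1) + 1) ≤ M)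
    (hF : F.card * 3 ^ m < 4 ^ m) (hev : ∀ i ∈ F, ∀ c, Few t r (ev i c))
    (hev' : ∀ i ∈ F, ∀ c, ∃ t', Few t' s (ev i c)) :
    ∃ y : Fin M → J t l → Bool, ∀ i ∈ F, ∃ c,
      ev i c (pl n O y) ≠ (hard2 n l t).eval (pl n O y) (bitsOf n c) := by
  by_contra hno
  push Not at hno
  set Z := Fintype.card (Fin M × J t l) with hZ
  have h1 : (univ : Finset (Fin M × J t l → Bool)) ⊆ F.biUnion fun i =>
      univ.filter fun a : Fin M × J t l → Bool => AgA n O (ev i) a := by
    intro a _
    obtain ⟨i, hi, h2⟩ := hno (fun c p => a (c, p))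
    rw [mem_biUnion]
    refine ⟨i, hi, mem_filter.2 ⟨mem_univ _, fun c => ?_⟩⟩
    have h3 := h2 c
    rw [eval_pl hM ht O hl] at h3
    exact h3
  have h2 := (card_le_card h1).trans card_biUnion_le
  rw [card_univ, Fintype.card_fun, Fintype.card_bool, ← hZ] at h2
  have h3 : 2 ^ Z * 4 ^ m ≤ F.card * 3 ^ m * 2 ^ Z := by
    calc 2 ^ Z * 4 ^ m ≤ (∑ i ∈ F, (univ.filter fun a : Fin M × J t l → Bool =>
          AgA n O (ev i) a).card) * 4 ^ m := Nat.mul_le_mul_right _ h2
      _ = ∑ i ∈ F, (univ.filter fun a : Fin M × J t l → Bool =>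
          AgA n O (ev i) a).card * 4 ^ m := sum_mul _ _ _
      _ ≤ ∑ _i ∈ F, 3 ^ m * 2 ^ Z := sum_le_sum fun i hi =>
          device_bound hM ht O hl hts hm (ev i) (hev i hi) (hev' i hi)
      _ = F.card * 3 ^ m * 2 ^ Z := by rw [sum_const, smul_eq_mul, mul_assoc]
  have h4 : 4 ^ m ≤ F.card * 3 ^ m := by
    have h5 : 4 ^ m * 2 ^ Z ≤ F.card * 3 ^ m * 2 ^ Z := by
      rw [mul_comm (4 ^ m)]
      exact h3
    exact Nat.le_of_mul_le_mul_right h5 (by positivity)
  omega

/-! ### The changed strings -/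

/-- the changed strings -/
def chS (n : ℕ) (y : Fin M → J t l → Bool) : Finset (List Bool) :=
  (univ : Finset (Fin M × Fin (t * l + 1))).image fun p =>
    qst2 (bitsOf n p.1) n (adr (y p.1) (p.2.1 / l)) p.2.1

theorem card_chS (y : Fin M → J t l → Bool) : (chS n y).card ≤ M * (t * l + 1) := by
  unfold chS
  refine card_image_le.trans ?_
  rw [card_univ, Fintype.card_prod, Fintype.card_fin, Fintype.card_fin]

theorem length_chS (y : Fin M → J t l → Bool) {q : List Bool} (hq : q ∈ chS n y) :
    q.length = n + l + n := by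
  unfold chS at hq
  rw [mem_image] at hq
  obtain ⟨p, -, rfl⟩ := hq
  exact length_qst2 (length_bitsOf' _ _) _ _

theorem pl_chS (y : Fin M → J t l → Bool) {q : List Bool} (hq : q ∉ chS n y) :
    pl n O y q = O q := by
  apply pl_not
  rintro c r hr rfl
  apply hq
  unfold chS
  rw [mem_image]
  exact ⟨(c, ⟨r, by omega⟩), mem_univ _, rfl⟩

end Pool.Agent.TH707.EO
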