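import Pool.Agent.TH707.EO.Circ

/-!
# Oracles which stay good after polynomially many changes, with single questions
-/

set_option autoImplicit false

namespace Pool.Agent.TH707.EO

open Pool.Agent.NPC Pool.Agent.H620R2.Gauge Pool.Agent.H622R2.Ckt Finset Filter
open Pool.Agent.W900.CH (Close dist finite_diff)
open Pool.Agent.TH678.PC (exists_exp_le pow_ev encL encL_length corr corr_enc bool_ne pair_inj
  unpair_len dist_poly)
open Pool.Agent.TH707.DP (sub one one_eval one_size one_depth desc desc_size desc_spec dl)

/-- the length of the list of the changes -/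
noncomputable def aL (b : ℕ → Polynomial ℕ) (d : Polynomial ℕ) (k n : ℕ) : ℕ :=
  d.eval ((b k).eval n) * (2 * (b k).eval n + 1)

/-- the length of the questions -/
noncomputable def Lam (b : ℕ → Polynomial ℕ) (d : Polynomial ℕ) (k n σ : ℕ) : ℕ :=
  k + (b k).eval (2 * (2 * aL b d k n + 1 + σ) + 1 + n) + (2 * (2 * aL b d k n + 1 + σ) + 1 + n) + 2

/-- the prefix of the question -/
def pfg (k r : ℕ) (w : List Bool) : List Bool :=
  List.replicate k true ++ false :: (List.replicate r true ++ false ::
    (w.flatMap (fun b => [true, b]) ++ [false]))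

theorem code_pfg (b : ℕ → Polynomial ℕ) (k : ℕ) (w y : List Bool) :
    code b k (pairBits w y) = pfg k ((b k).eval (pairBits w y).length) w ++ y := by
  unfold code pfg pairBits
  simp only [List.append_assoc, List.cons_append, List.nil_append]

theorem length_code'' (b : ℕ → Polynomial ℕ) (e : ℕ) (z : List Bool) :
    (code b e z).length = e + (b e).eval z.length + z.length + 2 := by
  unfold code
  simp only [List.length_append, List.length_replicate, List.length_cons]
  omega

open Classical in
/-- **The robust oracle.** -/
theorem robust (b : ℕ → Polynomial ℕ) (V : ℕ → Oracle → List Bool → Prop)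
    (hloc : ∀ k A A' x, (∀ z : List Bool, z.length ≤ (b k).eval x.length → A z = A' z) →
      (V k A x ↔ V k A' x)) :
    ∃ O : Oracle, ∀ (A : Oracle) (d : Polynomial ℕ), (∀ m, dist O A m ≤ d.eval m) →
      ∀ k n σ : ℕ, d.eval (Lam b d k n σ) < 2 ^ σ → ∃ p : List Bool,
        p.length ≤ Lam b d k n σ ∧ ∀ x : List Bool, x.length = n → (A (p ++ x) = true ↔ V k A x) := by
  set V' : ℕ → Oracle → List Bool → Prop := fun k B z =>
    V k (corr (unpair (unpair z).1).1 B) (unpair z).2 with hV'
  have hloc' : ∀ e A A' x, (∀ z : List Bool, z.length < (code b e x).length → A z = A' z) →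
      (V' e A x ↔ V' e A' x) := by
    intro e A A' z h
    simp only [hV']
    apply hloc
    intro y hy
    have h1 : A y = A' y := by
      apply h
      rw [length_code'']
      have h2 := eval_mono (b e) (unpair_len z)
      omega
    unfold corr
    rw [h1]
  set O : Oracle := CC.Phi b V' (fun _ => false) with hO
  refine ⟨O, fun A d hd k n σ hσ => ?_⟩
  -- the changed strings
  set Df : ℕ → Finset (List Bool) := fun m => (finite_diff O A m).toFinset with hDf
  have hDc : ∀ m, (Df m).card ≤ d.eval m := by
    intro m
    refine le_trans (le_of_eq ?_) (hd m)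
    unfold Pool.Agent.W900.CH.dist
    rw [hDf, Set.ncard_eq_toFinset_card _ (finite_diff O A m)]
  have hDm : ∀ m y, y ∈ Df m ↔ y.length ≤ m ∧ A y ≠ O y := by
    intro m y
    rw [hDf, Set.Finite.mem_toFinset]
    rfl
  obtain ⟨al, hal⟩ : ∃ al, al = encL (Df ((b k).eval n)).toList := ⟨_, rfl⟩
  have hall : al.length ≤ aL b d k n := by
    rw [hal]
    refine (encL_length ((b k).eval n) _ fun y hy => ?_).trans ?_
    · rw [Finset.mem_toList, hDm] at hy
      exact hy.1
    · rw [Finset.length_toList]
      exact Nat.mul_le_mul_right _ (hDc _)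
  have hzl : ∀ (s x : List Bool), x.length = n → s.length = σ →
      (pairBits (pairBits al s) x).length ≤ 2 * (2 * aL b d k n + 1 + σ) + 1 + n := by
    intro s x hx hs
    rw [length_pairBits, length_pairBits, hx, hs]
    omega
  have hlen : ∀ (s x : List Bool), x.length = n → s.length = σ →
      (code b k (pairBits (pairBits al s) x)).length ≤ Lam b d k n σ := by
    intro s x hx hs
    rw [length_code'']
    unfold Lam
    have h1 := hzl s x hx hs
    have h2 := eval_mono (b k) h1
    omega
  have hsalt : ∃ s : List Bool, s.length = σ ∧ ∀ x : List Bool, x.length = n →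
      A (code b k (pairBits (pairBits al s) x)) = O (code b k (pairBits (pairBits al s) x)) := by
    by_contra hno
    push Not at hno
    have h1 : ∀ j : ℕ, ∃ x : List Bool, x.length = n ∧
        A (code b k (pairBits (pairBits al (bitsOf σ j)) x)) ≠
        O (code b k (pairBits (pairBits al (bitsOf σ j)) x)) := by
      intro j
      exact hno (bitsOf σ j) (Pool.Agent.H943R6.MC.length_bitsOf' _ _)
    choose x hx hne using h1
    have h2 : (range (2 ^ σ)).card ≤ (Df (Lam b d k n σ)).card := by
      apply Finset.card_le_card_of_injOn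
        (fun j => code b k (pairBits (pairBits al (bitsOf σ j)) (x j)))
      · intro j _
        refine (hDm _ _).2 ⟨?_, hne j⟩
        exact hlen _ _ (hx j) (Pool.Agent.H943R6.MC.length_bitsOf' _ _)
      · intro j hj j' hj' h
        rw [Finset.mem_coe, mem_range] at hj hj'
        have h3 := (CC.code_inj b h).2
        have h4 := (pair_inj (pair_inj h3).1).2
        exact Pool.Agent.TH678.SW.bitsOf_inj _ _ _ hj hj' h4
    rw [card_range] at h2
    have h3 := hDc (Lam b d k n σ)
    omega
  obtain ⟨s, hs, hsx⟩ := hsalt
  refine ⟨pfg k ((b k).eval (2 * (2 * al.length + 1 + σ) + 1 + n)) (pairBits al s), ?_, ?_⟩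
  · have h1 := hlen s (List.replicate n true) (List.length_replicate) hs
    rw [code_pfg, List.length_append] at h1
    have h2 : (pairBits (pairBits al s) (List.replicate n true)).length =
        2 * (2 * al.length + 1 + σ) + 1 + n := by
      rw [length_pairBits, length_pairBits, hs, List.length_replicate]
    rw [h2] at h1
    omega
  · intro x hx
    have h2 : (pairBits (pairBits al s) x).length = 2 * (2 * al.length + 1 + σ) + 1 + n := by
      rw [length_pairBits, length_pairBits, hs, hx]
    have h3 := code_pfg b k (pairBits al s) x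
    rw [h2] at h3
    rw [← h3, hsx x hx, hO, CC.Phi_code b V' _ hloc', ← hO]
    simp only [hV']
    rw [unpair_pairBits]
    simp only
    rw [unpair_pairBits]
    apply hloc
    intro z hz
    rw [hx] at hz
    rw [hal, corr_enc]
    simp only [Finset.mem_toList, hDm]
    by_cases h4 : A z = O z
    · rw [if_neg (fun h => h.2 h4), h4]
    · rw [if_pos ⟨hz, h4⟩]
      exact (bool_ne h4).symm

end Pool.Agent.TH707.EO
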