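import Pool.Agent.TH707.OB.Defs

/-!
# Space-bounded classes with advice
-/

set_option autoImplicit false

namespace Pool.Agent.TH707.EO

open Pool.Agent.NPC Pool.Agent.H620R2.Gauge Pool.Agent.TH707.OB Filter

/-- `L` is read off from the oracle `A` by one question, which consists of an advice string of
polynomial length and of the input: for all sufficiently long inputs `x`, `x` is in `L` if and only
if the string `h(|x|) x` is in `A`. -/
def OneAdv (A : Oracle) (L : Set (List Bool)) : Prop :=
  ∃ (P : Polynomial ℕ) (h : ℕ → List Bool), ∀ᶠ n : ℕ in atTop, (h n).length ≤ P.eval n ∧
    ∀ x : List Bool, x.length = n → (x ∈ L ↔ A (h n ++ x) = true)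

/-- Polylogarithmic space with polynomial advice relative to `A`: the language `L` is decided, for
all sufficiently long inputs, by a (deterministic) algorithm which has an advice string of polynomial
length as an additional input and works on a memory of at most `(log n) ^ c` bits for some `c`;
between the questions it may use any polynomial-time computation. There is no bound on the number of
rounds. -/
def PolylogSpaceAdv (A : Oracle) (L : Set (List Bool)) : Prop :=
  ∃ (M : SAlg) (c : ℕ) (P : Polynomial ℕ) (h : ℕ → List Bool), ∀ᶠ n : ℕ in atTop,
    (h n).length ≤ P.eval n ∧ ∀ x : List Bool, x.length = n →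
      (∀ s, M.Reach A (pairBits (h n) x) s → s.length ≤ (Nat.log 2 n) ^ c) ∧
      ∃ s z, M.Reach A (pairBits (h n) x) s ∧
        M.act (pairBits (pairBits (h n) x) s) = true :: z ∧ (x ∈ L ↔ z = [true])

/-- A space-bounded class with advice: a class `C` of languages relative to oracles which contains,
relative to every oracle `A`, all languages that are read off from `A` by one question with
polynomial advice, and which is contained in nondeterministic space `n ^ b` with polynomial advice,
for some `b`, where the algorithms are built from the functions in some countable set. -/
def SpaceClassAdv (C : Oracle → Set (List Bool) → Prop) : Prop :=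
  (∀ A L, OneAdv A L → C A L) ∧
  ∃ (G : Set (List Bool → List Bool)) (b : ℕ), G.Countable ∧
    ∀ A L, C A L → ∃ c : ℕ, InSpace G (fun n => n ^ b) (fun n => n ^ c) A L

end Pool.Agent.TH707.EO
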