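import Pool.Agent.TH707.EO.Obl
import Pool.Agent.TH707.EO.CircMain
import Pool.Agent.TH707.EO.SpaceDefs
import Pool.Agent.TH707.OB.Polylog

/-!
# Changes of every oracle: small space
-/

set_option autoImplicit false

namespace Pool.Agent.TH707.EO

open Pool.Agent.NPC Pool.Agent.H620R2.Gauge Pool.Agent.H622R2 Pool.Agent.H622R2.Ckt Finset Filter
open Pool.Agent.W900.CH (Close dist)
open Pool.Agent.TH678.PC (exists_exp_le pow_ev dist_poly)
open Pool.Agent.TH707.DP Pool.Agent.TH707.OB Pool.Agent.TH707.EC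
open Pool.Agent.H943R6.MC (length_bitsOf')
open H568R2

/-! ### Truncated runs -/

theorem reachT_congr_len {M : NAlg} {s q : ℕ} {B B' : Oracle} {x σ : List Bool}
    (hB : ∀ y : List Bool, y.length ≤ q → B' y = B y) (h : ReachT M s q B x σ) :
    ReachT M s q B' x σ := by
  induction h with
  | start => exact ReachT.start
  | step g h1 h2 h3 h4 ih =>
    have h5 := hB _ h3
    rw [← h5] at h4 ⊢
    exact ReachT.step g ih h2 h3 h4

theorem accT_congr_len {M : NAlg} {s q : ℕ} {B B' : Oracle} {x : List Bool}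
    (hB : ∀ y : List Bool, y.length ≤ q → B' y = B y) : AccT M s q B' x ↔ AccT M s q B x := by
  constructor
  · rintro ⟨σ, h1, h2⟩
    exact ⟨σ, reachT_congr_len (fun y hy => (hB y hy).symm) h1, h2⟩
  · rintro ⟨σ, h1, h2⟩
    exact ⟨σ, reachT_congr_len hB h1, h2⟩

/-- the possible questions with advice `w`, for all blocks -/
def ZS (n M s : ℕ) (N : NAlg) (w : List Bool) : Finset (List Bool) :=
  ((univ : Finset (Fin M)) ×ˢ range (2 ^ (s + 1))).image fun p =>
    (N.act (pairBits (pairBits w (bitsOf n p.1)) (str p.2))).tail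

theorem card_ZS (n M s : ℕ) (N : NAlg) (w : List Bool) :
    (ZS n M s N w).card ≤ M * 2 ^ (s + 1) := by
  unfold ZS
  refine card_image_le.trans ?_
  rw [card_product, card_univ, Fintype.card_fin, card_range]

theorem mem_ZS {n M s : ℕ} {N : NAlg} {w σ y : List Bool} (c : Fin M) (hσ : σ.length ≤ s)
    (h : N.act (pairBits (pairBits w (bitsOf n c)) σ) = false :: y) : y ∈ ZS n M s N w := by
  unfold ZS
  rw [mem_image]
  refine ⟨(c, idx σ), ?_, ?_⟩
  · rw [mem_product, mem_range]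
    refine ⟨mem_univ _, ?_⟩
    have h3 := idx_lt σ
    have h4 : 2 ^ (σ.length + 1) ≤ 2 ^ (s + 1) := Nat.pow_le_pow_right (by norm_num) (by omega)
    dsimp only
    omega
  · dsimp only
    rw [str_idx, h]
    rfl

/-! ### The requirement -/

/-- On some length `n ≥ n₀`, the algorithm with the functions `P` with memory `n ^ b` and questions
of length at most `n ^ d` does not compute the hard function, whatever the advice of length at most
`n ^ c` is. -/
def RqS (P : (List Bool → List Bool) × (List Bool → List Bool)) (b c d n₀ : ℕ) (A : Oracle) :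
    Prop :=
  ∃ n ≥ n₀, ∀ w : List Bool, w.length ≤ n ^ c → ∃ u : List Bool, u.length = n ∧
    ¬ (AccT ⟨P.1, P.2⟩ (n ^ b) (n ^ d) A (pairBits w u) ↔
      (hard2 n (n ^ (b + 2)) 1).eval A u = true)

/-- the number of blocks -/
def MS (n c : ℕ) : ℕ := 3 * (n ^ c + 1) + 1

open Classical in
theorem forced_S (P : (List Bool → List Bool) × (List Bool → List Bool)) (b c d n₀ : ℕ) :
    ∃ e n₁ : ℕ, ∀ n ≥ n₁, ∀ A : Oracle,
    ∃ (A' : Oracle) (b' : ℕ) (D : Finset (List Bool)),
      (∀ y : List Bool, y.length < n → A' y = A y) ∧ (∀ y ∉ D, A' y = A y) ∧ D.card ≤ n ^ e ∧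
      ∀ A'' : Oracle, (∀ y : List Bool, y.length < b' → A'' y = A' y) → RqS P b c d n₀ A'' := by
  set MP : Polynomial ℕ := Polynomial.C 3 * (Polynomial.X ^ c + 1) + 1 with hMP
  have hMe : ∀ n, MP.eval n = MS n c := by
    intro n
    rw [hMP]
    simp only [Polynomial.eval_add, Polynomial.eval_mul, Polynomial.eval_C, Polynomial.eval_X,
      Polynomial.eval_pow, Polynomial.eval_one]
    rfl
  obtain ⟨e, n₁, he⟩ := exists_exp_le (MP * (Polynomial.X ^ (b + 2) + 1))
  obtain ⟨e', n₂, he'⟩ := exists_exp_le MP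
  obtain ⟨n₃, hn₃⟩ := pow_ev (max e' (b + 3))
  refine ⟨e, n₀ + n₁ + n₂ + n₃ + 4, fun n hn A => ?_⟩
  obtain ⟨M, hM⟩ : ∃ M, M = MS n c := ⟨_, rfl⟩
  obtain ⟨l, hl⟩ : ∃ l, l = n ^ (b + 2) := ⟨_, rfl⟩
  obtain ⟨s, hs⟩ : ∃ s, s = n ^ b := ⟨_, rfl⟩
  have hpow : n ^ (max e' (b + 3)) ≤ 2 ^ n := hn₃ n (by omega)
  have hM2 : M ≤ 2 ^ n := by
    refine le_trans ?_ hpow
    rw [hM, ← hMe]
    exact (he' n (by omega)).trans (Nat.pow_le_pow_right (by omega) (le_max_left _ _))
  have hl1 : 1 ≤ l := by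
    rw [hl]
    exact Nat.one_le_pow _ _ (by omega)
  have hl2 : l < 2 ^ n := by
    have h1 : n ^ (b + 3) ≤ n ^ (max e' (b + 3)) :=
      Nat.pow_le_pow_right (by omega) (le_max_right _ _)
    have h2 : n ^ (b + 3) = n ^ (b + 2) * n := pow_succ _ _
    rw [← hl] at h2
    nlinarith
  have ht : 1 * l < 2 ^ n := by rwa [one_mul]
  have hsl : 2 * n + s + 3 ≤ l := by
    have h1 : 1 ≤ s := by
      rw [hs]
      exact Nat.one_le_pow _ _ (by omega)
    have h2 : l = s * (n * n) := by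
      rw [hl, hs]
      ring
    have h3 : 2 * n + 4 ≤ n * n := by nlinarith [show 4 ≤ n by omega]
    rw [h2]
    nlinarith [Nat.mul_le_mul_left s h3]
  obtain ⟨y, hy⟩ := exists_plant_obl (M := M) (n := n) (l := l) hM2 ht A
    (range (2 ^ (n ^ c + 1)))
    (fun j i B => decide (AccT ⟨P.1, P.2⟩ s (n ^ d) B (pairBits (str j) (bitsOf n i))))
    (fun j => ZS n M s ⟨P.1, P.2⟩ (str j)) hl1 (by
      intro j _
      have h1 := card_ZS n M s ⟨P.1, P.2⟩ (str j)
      have h2 : M * l ≤ 2 ^ n * 2 ^ n := Nat.mul_le_mul hM2 hl2.le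
      have h3 : M * 2 ^ (s + 1) ≤ 2 ^ n * 2 ^ (s + 1) := Nat.mul_le_mul_right _ hM2
      have h4 : 2 ^ n * 2 ^ n ≤ 2 ^ (2 * n + s + 1) := by
        rw [← pow_add]
        exact Nat.pow_le_pow_right (by norm_num) (by omega)
      have h5 : 2 ^ n * 2 ^ (s + 1) ≤ 2 ^ (2 * n + s + 1) := by
        rw [← pow_add]
        exact Nat.pow_le_pow_right (by norm_num) (by omega)
      calc 2 * (M * l + (ZS n M s ⟨P.1, P.2⟩ (str j)).card)
          ≤ 2 * (2 ^ (2 * n + s + 1) + 2 ^ (2 * n + s + 1)) := by omega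
        _ = 2 ^ (2 * n + s + 3) := by ring
        _ ≤ 2 ^ l := Nat.pow_le_pow_right (by norm_num) hsl) (by
      rw [card_range, hM]
      unfold MS
      generalize n ^ c + 1 = k
      calc 2 ^ k * 3 ^ (3 * k + 1) = 54 ^ k * 3 := by
            rw [pow_succ, pow_mul, ← mul_assoc, ← mul_pow]
            norm_num
        _ < 64 ^ k * 4 := by
            have h2 : 54 ^ k ≤ 64 ^ k := Nat.pow_le_pow_left (by norm_num) k
            have h3 : 0 < 64 ^ k := by positivity
            omega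
        _ = 4 ^ (3 * k + 1) := by
            rw [pow_succ, pow_mul]
            norm_num) (by
      intro j _ i B B' h
      refine decide_eq_decide.2 (accT_congr fun σ z h1 h2 => h z (mem_ZS i h1 h2)))
  refine ⟨pl n A y, n ^ d + (hard2 n l 1).size + 1, chS n y, fun q hq => ?_,
    fun q hq => pl_chS A y hq, ?_, fun A'' hA'' => ?_⟩
  · apply pl_chS
    intro h
    have := length_chS y h
    omega
  · refine (card_chS y).trans ?_
    refine le_trans ?_ (he n (by omega))
    rw [Polynomial.eval_mul, hMe, ← hM, Polynomial.eval_add, Polynomial.eval_pow,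
      Polynomial.eval_X, Polynomial.eval_one, ← hl, one_mul]
  · refine ⟨n, by omega, fun w hw => ?_⟩
    have hw2 : idx w < 2 ^ (n ^ c + 1) := by
      have h3 := idx_lt w
      have h4 : 2 ^ (w.length + 1) ≤ 2 ^ (n ^ c + 1) :=
        Nat.pow_le_pow_right (by norm_num) (by omega)
      omega
    obtain ⟨i, hi⟩ := hy (idx w) (mem_range.2 hw2)
    refine ⟨bitsOf n i, length_bitsOf' _ _, fun hiff => hi ?_⟩
    rw [← hl, ← hs] at hiff
    rw [str_idx]
    have h1 : AccT ⟨P.1, P.2⟩ s (n ^ d) A'' (pairBits w (bitsOf n i)) ↔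
        AccT ⟨P.1, P.2⟩ s (n ^ d) (pl n A y) (pairBits w (bitsOf n i)) :=
      accT_congr_len fun z hz => hA'' z (by omega)
    have h2 : (hard2 n l 1).eval A'' (bitsOf n i) =
        (hard2 n l 1).eval (pl n A y) (bitsOf n i) :=
      eval_local _ _ _ (fun q hq => hA'' q (by omega)) _
    rw [h1, h2] at hiff
    by_cases h3 : AccT ⟨P.1, P.2⟩ s (n ^ d) (pl n A y) (pairBits w (bitsOf n i))
    · rw [decide_eq_true h3, (hiff.1 h3)]
    · rw [decide_eq_false h3]
      rw [hiff, Bool.not_eq_true] at h3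
      exact h3.symm

/-! ### The language -/

theorem hard2_one {A : Oracle} {u : List Bool} {n e : ℕ} (hu : u.length = n) (hn : 1 ≤ n) :
    (hard2 n (n ^ e) 1).eval A u = true ↔ u ∈ LQ e A := by
  subst hu
  rw [hard2_eval A rfl (Nat.one_le_pow _ _ hn)]
  show _ ↔ A (u ++ ptrL A u (u.length ^ e) ++ bitsL u.length (u.length ^ e)) = true
  have h1 : walk2 A u u.length (u.length ^ e) 1 = ptrL A u (u.length ^ e) := by
    show (List.range (u.length ^ e)).map (fun i => A (u ++ List.replicate (u.length ^ e) false ++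
      bitsL u.length (0 * u.length ^ e + i))) = _
    unfold ptrL
    simp only [zero_mul, zero_add]
  rw [h1, one_mul]

/-- **More than polynomially many changes: `P` is not in small space.** -/
theorem many_S {g : ℕ → ℝ}
    (hg : ¬ ∃ c : ℕ, ∀ᶠ n : ℕ in atTop, ∃ m ≥ n, g m ≤ (n : ℝ) ^ c)
    (G : Set (List Bool → List Bool)) (hG : G.Countable) (O : Oracle) :
    ∃ A, Close g O A ∧ ∀ b : ℕ, ∃ L, IsP A L ∧
      ∀ c : ℕ, ¬ InSpace G (fun n => n ^ b) (fun n => n ^ c) A L := by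
  set G' := insert id G with hG'
  have hG'c : G'.Countable := hG.insert _
  have : Countable G' := hG'c.to_subtype
  have : Nonempty G' := ⟨⟨id, Set.mem_insert _ _⟩⟩
  obtain ⟨A, hA, hR⟩ := stage_all
    (fun (i : (G' × G') × ℕ × ℕ × ℕ × ℕ) => RqS (i.1.1.1, i.1.2.1) i.2.1 i.2.2.1 i.2.2.2.1
      i.2.2.2.2) (fun i => forced_S _ _ _ _ _) hg O
  refine ⟨A, hA, fun b => ⟨LQ (b + 2) A, LQ_isP _ A, fun c hin => ?_⟩⟩
  obtain ⟨N, h, p, h1, h2, h3⟩ := hin
  obtain ⟨d, n₁, hd⟩ := exists_exp_le p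
  obtain ⟨n₂, hn₂⟩ := eventually_atTop.1 h3
  obtain ⟨n, hn, h4⟩ := hR ((⟨N.act, Set.mem_insert_of_mem _ h1⟩,
    ⟨N.next, Set.mem_insert_of_mem _ h2⟩), b, c, d, n₁ + n₂ + 1)
  dsimp only at hn h4
  obtain ⟨h5, h6⟩ := hn₂ n (by omega)
  obtain ⟨u, hu, h7⟩ := h4 (h n) h5
  apply h7
  rw [hard2_one hu (by omega)]
  obtain ⟨h8, h9⟩ := h6 u hu
  rw [h9]
  exact accT_iff (fun σ hσ => ⟨(h8 σ hσ).1, fun y hy => ((h8 σ hσ).2 y hy).trans
    (hd n (by omega))⟩) fun y _ => rfl

/-- **Polynomially many changes: `PSPACE` is read off by single questions.** -/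
theorem few_S {g : ℕ → ℝ}
    (hg : ∃ c : ℕ, ∀ᶠ n : ℕ in atTop, ∃ m ≥ n, g m ≤ (n : ℝ) ^ c) :
    ∃ O : Oracle, ∀ A, Close g O A → ∀ L, IsPSPACE A L → OneAdv A L := by
  obtain ⟨gg, hgg⟩ := CC.exists_enum
  choose b hb using fun e : ℕ => pspace_task (gg e).1 (gg e).2
  obtain ⟨O, hO⟩ := robust b
    (fun e B x => CC.Acc (gg e).1 (CC.cut ((b e).eval x.length) B) x) (by
      intro e A A' x h
      have hcut : CC.cut ((b e).eval x.length) A = CC.cut ((b e).eval x.length) A' := by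
        funext z
        unfold CC.cut
        split_ifs with hz
        · exact h z hz
        · rfl
      simp only [hcut])
  refine ⟨O, fun A hA => ?_⟩
  obtain ⟨d, hd⟩ := dist_poly hg hA
  rintro L ⟨M, p, hM⟩
  obtain ⟨e, he⟩ := hgg (M, p)
  have hbe := hb e A L (by rw [he]; exact hM)
  set aP : Polynomial ℕ := d.comp (b e) * (Polynomial.C 2 * b e + 1) with haP
  set ZP : Polynomial ℕ := Polynomial.C 2 * (Polynomial.C 2 * aP + 1 + Polynomial.X) + 1 +
    Polynomial.X with hZP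
  set LP : Polynomial ℕ := Polynomial.C e + (b e).comp ZP + ZP + Polynomial.C 2 with hLP
  have hLe : ∀ n, LP.eval n = Lam b d e n n := by
    intro n
    rw [hLP, hZP, haP]
    unfold Lam aL
    simp only [Polynomial.eval_add, Polynomial.eval_mul, Polynomial.eval_C, Polynomial.eval_X,
      Polynomial.eval_one, Polynomial.eval_comp]
  obtain ⟨n₀, hn₀⟩ := eventually_atTop.1 (poly_le_two_pow (d.comp LP + 1))
  have hex : ∀ n, ∃ q : List Bool, n₀ ≤ n → q.length ≤ LP.eval n ∧
      ∀ x : List Bool, x.length = n → (x ∈ L ↔ A (q ++ x) = true) := by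
    intro n
    by_cases hn : n₀ ≤ n
    · have h1 := hn₀ n hn
      simp only [Polynomial.eval_add, Polynomial.eval_comp, Polynomial.eval_one, hLe] at h1
      obtain ⟨q, hq, hqx⟩ := hO A d hd e n n (by omega)
      refine ⟨q, fun _ => ⟨by rw [hLe]; exact hq, fun x hx => ?_⟩⟩
      rw [hqx x hx, hbe x]
    · exact ⟨[], fun h => absurd h hn⟩
  choose h hh using hex
  exact ⟨LP, h, eventually_atTop.2 ⟨n₀, fun n hn => hh n hn⟩⟩

end Pool.Agent.TH707.EO
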