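import Pool.Agent.TH707.EO.Space

/-!
# Polylogarithmic space with advice is a space-bounded class with advice
-/

set_option autoImplicit false

namespace Pool.Agent.TH707.EO

open Pool.Agent.NPC Pool.Agent.H620R2.Gauge Pool.Agent.TH707.DP Pool.Agent.TH707.OB Filter
open Pool.Agent.H620R2.Gauge.CC (act_length exists_enum poly_code reach_unique)
open Pool.Agent.H622R2 (poly_of_polyTime polyTime_of_poly_list poly_pairBits)
open Pool.Agent.TH678.PC (exists_exp_le)

theorem polylogAdv_of_one {A : Oracle} {L : Set (List Bool)} (h : OneAdv A L) :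
    PolylogSpaceAdv A L := by
  obtain ⟨P, h, hL⟩ := h
  have hact : Poly (fun y : List Bool => if (unpair y).2 = [] then
      false :: ((unpair (unpair y).1).1 ++ (unpair (unpair y).1).2) else
        true :: (unpair y).2) :=
    NPC.Poly.ite (NPC.Poly.decide_eq (NPC.Poly.snd poly_unpair) (NPC.Poly.const []))
      (NPC.Poly.cons (NPC.Poly.const false)
        (NPC.Poly.append (NPC.Poly.fst (NPC.Poly.comp poly_unpair (NPC.Poly.fst poly_unpair)))
          (NPC.Poly.snd (NPC.Poly.comp poly_unpair (NPC.Poly.fst poly_unpair)))))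
      (NPC.Poly.cons (NPC.Poly.const true) (NPC.Poly.snd poly_unpair))
  have hnext : Poly (fun y : List Bool => [(unpair y).2.getD 0 false]) :=
    NPC.Poly.cons (NPC.Poly.getD (NPC.Poly.snd poly_unpair) (NPC.Poly.const 0)
      (NPC.Poly.const false)) (NPC.Poly.const [])
  refine ⟨⟨_, polyTime_of_poly_list hact, _, polyTime_of_poly_list hnext⟩, 1, P, h, ?_⟩
  set M : SAlg := ⟨_, polyTime_of_poly_list hact, _, polyTime_of_poly_list hnext⟩ with hM
  have h1 : ∀ w x s, M.act (pairBits (pairBits w x) s) =
      if s = [] then false :: (w ++ x) else true :: s := by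
    intro w x s
    show (if (unpair (pairBits (pairBits w x) s)).2 = [] then
      false :: ((unpair (unpair (pairBits (pairBits w x) s)).1).1 ++
        (unpair (unpair (pairBits (pairBits w x) s)).1).2) else
      true :: (unpair (pairBits (pairBits w x) s)).2) = _
    rw [unpair_pairBits]
    dsimp only
    rw [unpair_pairBits]
  have h2 : ∀ x b s, M.next (pairBits x (b :: s)) = [b] := by
    intro x b s
    show [(unpair (pairBits x (b :: s))).2.getD 0 false] = _
    rw [unpair_pairBits]
    rfl
  have h3 : ∀ w x s, M.Reach A (pairBits w x) s → s = [] ∨ s = [A (w ++ x)] := by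
    intro w x s hs
    cases hs with
    | start => exact Or.inl rfl
    | @step s y h4 h5 =>
      right
      rw [h1] at h5
      rw [h2]
      by_cases hs : s = []
      · rw [if_pos hs] at h5
        rw [List.tail_eq_of_cons_eq h5]
      · rw [if_neg hs] at h5
        simp at h5
  filter_upwards [hL, eventually_ge_atTop 2] with n hLn hn
  obtain ⟨hP, hLn⟩ := hLn
  refine ⟨hP, fun x hx => ?_⟩
  have hlog : 1 ≤ Nat.log 2 n := Nat.le_log_of_pow_le (by norm_num) (by simpa using hn)
  refine ⟨fun s hs => ?_, [A (h n ++ x)], [A (h n ++ x)], ?_, ?_, ?_⟩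
  · rw [pow_one]
    rcases h3 _ x s hs with rfl | rfl
    · exact Nat.zero_le _
    · simpa using hlog
  · have h4 := SAlg.Reach.step (M := M) (A := A) (x := pairBits (h n) x) SAlg.Reach.start
      (by rw [h1, if_pos rfl])
    rwa [h2] at h4
  · rw [h1, if_neg (by simp)]
  · rw [hLn x hx]
    simp

theorem space_of_polylogAdv {A : Oracle} {L : Set (List Bool)} (h : PolylogSpaceAdv A L) :
    ∃ c : ℕ, InSpace {F | PolyTime F} (fun n => n ^ 1) (fun n => n ^ c) A L := by
  obtain ⟨M, c, P, h, hL⟩ := h
  have hnext : Poly (fun y : List Bool =>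
      M.next (pairBits (unpair y).1 (unpair y).2.tail)) :=
    NPC.Poly.comp (poly_of_polyTime M.next_poly)
      (poly_pairBits (NPC.Poly.fst poly_unpair) (NPC.Poly.tail (NPC.Poly.snd poly_unpair)))
  set M' : NAlg := ⟨M.act,
    fun y : List Bool => M.next (pairBits (unpair y).1 (unpair y).2.tail)⟩ with hM'
  have h2 : ∀ x g b s, M'.next (pairBits x (g :: b :: s)) = M.next (pairBits x (b :: s)) := by
    intro x g b s
    show M.next (pairBits (unpair (pairBits x (g :: b :: s))).1
      (unpair (pairBits x (g :: b :: s))).2.tail) = _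
    rw [unpair_pairBits]
    rfl
  have h3 : ∀ x s, M'.Reach A x s ↔ M.Reach A x s := by
    intro x s
    constructor
    · intro hs
      induction hs with
      | start => exact SAlg.Reach.start
      | step g _ h5 ih =>
        rw [h2]
        exact SAlg.Reach.step ih h5
    · intro hs
      induction hs with
      | start => exact NAlg.Reach.start
      | @step s y _ h5 ih =>
        have h6 := NAlg.Reach.step (M := M') false ih h5
        rwa [h2] at h6
  obtain ⟨p, hp⟩ := act_length M Polynomial.X
  obtain ⟨e, n₁, he⟩ := exists_exp_le P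
  refine ⟨e, M', h, p.comp (Polynomial.C 2 * P + 1 + Polynomial.X), M.act_poly,
    polyTime_of_poly_list hnext, ?_⟩
  filter_upwards [hL, log_pow_le c, eventually_ge_atTop n₁] with n hLn hlog hn
  obtain ⟨hP, hLn⟩ := hLn
  refine ⟨hP.trans (he n hn), fun x hxn => ?_⟩
  obtain ⟨h4, s, z, h5, h6, h7⟩ := hLn x hxn
  refine ⟨fun σ hσ => ?_, ?_⟩
  · rw [h3] at hσ
    have h8 := (h4 σ hσ).trans hlog
    refine ⟨by rwa [pow_one], fun q hq => ?_⟩
    have h9 := hp (pairBits (h n) x) σ (by
      rw [Polynomial.eval_X, length_pairBits, hxn]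
      omega)
    have h10 : M.act (pairBits (pairBits (h n) x) σ) = false :: q := hq
    rw [h10, List.length_cons] at h9
    have h11 : p.eval (pairBits (h n) x).length ≤
        p.eval ((Polynomial.C 2 * P + 1 + Polynomial.X).eval n) := by
      apply eval_mono
      rw [length_pairBits, hxn]
      simp only [Polynomial.eval_add, Polynomial.eval_mul, Polynomial.eval_C,
        Polynomial.eval_one, Polynomial.eval_X]
      omega
    rw [Polynomial.eval_comp]
    omega
  · constructor
    · intro hxL
      refine ⟨s, (h3 _ s).2 h5, ?_⟩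
      show M.act _ = _
      rw [h6, h7.1 hxL]
    · rintro ⟨t, h8, h9⟩
      rw [h3] at h8
      have h9' : M.act (pairBits (pairBits (h n) x) t) = [true, true] := h9
      have h10 := reach_unique h5 h8 ⟨z, h6⟩ ⟨_, h9'⟩
      rw [← h10, h6] at h9'
      exact h7.2 (List.tail_eq_of_cons_eq h9')

theorem spaceClassAdv_polylog : SpaceClassAdv PolylogSpaceAdv :=
  ⟨fun _ _ h => polylogAdv_of_one h, _, 1, OB.countable_polyTime, fun _ _ h => space_of_polylogAdv h⟩

end Pool.Agent.TH707.EO
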