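import Pool.Agent.TH707.EO.Forced

/-!
# Changes of every oracle for which the minimisation problems are hard: the stages
-/

set_option autoImplicit false

namespace Pool.Agent.TH707.EO

open Pool.Agent.NPC Pool.Agent.H620R2.Gauge Pool.Agent.H622R2.Ckt Finset H568R2
open Pool.Agent.H943R6.MC Pool.Agent.TH707.BP Filter
open Pool.Agent.W900.CH (Close dist)
open Pool.Agent.TH678.PC (AccN)
open Pool.Agent.TH678.PC (exists_stages accN_agree' exists_exp_le pow_ev exists_np2 card_adv)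

open Classical in
theorem forced (J : ℕ) (M : Alg) (p p' : Polynomial ℕ) : ∃ e n₁ : ℕ, ∀ n ≥ n₁, ∀ A : Oracle,
    ∃ (A' : Oracle) (b : ℕ) (D : Finset (List Bool)),
      (∀ y : List Bool, y.length < n → A' y = A y) ∧ (∀ y ∉ D, A' y = A y) ∧ D.card ≤ n ^ e ∧
      ∀ A'' : Oracle, (∀ y : List Bool, y.length < b → A'' y = A' y) → Rq J M p p' A'' := by
  -- the polynomials
  set Lp : Polynomial ℕ := p'.comp (Polynomial.X ^ 2) with hLp
  set Xp : Polynomial ℕ := Polynomial.C 2 * Polynomial.X ^ 2 + 1 + Lp with hXp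
  set Qp : Polynomial ℕ := M.p.comp (Polynomial.C 2 * p.comp Xp + 1 + Xp) + 1 with hQp
  set Kp : Polynomial ℕ := Polynomial.C 2 * Qp * (Polynomial.C 2 * (Lp + Qp + Polynomial.C 2))
    with hKp
  obtain ⟨e, n₁, he⟩ := exists_exp_le ((Kp * Polynomial.X ^ 2).comp (Polynomial.C 2 * Polynomial.X))
  obtain ⟨e', n₂, he'⟩ := exists_exp_le Kp
  obtain ⟨n₃, hn₃⟩ := pow_ev e'
  obtain ⟨r, hr⟩ := accN_agree' M p
  refine ⟨e, n₁ + n₂ + n₃ + 2 ^ J + 1, fun n hn A => ?_⟩
  obtain ⟨j, hj⟩ : ∃ j, j = Nat.log 2 n + 1 := ⟨_, rfl⟩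
  have hj1 : n ≤ 2 ^ j := by
    rw [hj]
    exact (Nat.lt_pow_succ_log_self (by norm_num) n).le
  have hj2 : 2 ^ j ≤ 2 * n := by
    rw [hj, pow_succ, mul_comm]
    exact Nat.mul_le_mul_left _ (Nat.pow_log_le_self 2 (by
      generalize 2 ^ J = c at hn
      omega))
  have hJ : J ≤ j := by
    have h1 : 2 ^ J ≤ n := by
      generalize 2 ^ J = c at hn
      omega
    exact (Nat.pow_le_pow_iff_right (a := 2) (by norm_num)).1 (h1.trans hj1)
  obtain ⟨N0, hN0⟩ : ∃ N0, N0 = 2 ^ j := ⟨_, rfl⟩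
  have hn' : n₁ + n₂ + n₃ + 1 ≤ n := by
    generalize 2 ^ J = c at hn
    omega
  have hnN : n ≤ N0 := by rw [hN0]; exact hj1
  have hNn : N0 ≤ 2 * n := by rw [hN0]; exact hj2
  have hsq : 2 ^ (2 * j) = N0 ^ 2 := by rw [hN0, ← pow_mul, mul_comm]
  obtain ⟨L, hL⟩ : ∃ L, L = Lp.eval N0 := ⟨_, rfl⟩
  obtain ⟨q, hq⟩ : ∃ q, q = Qp.eval N0 := ⟨_, rfl⟩
  have hL' : L = p'.eval (2 ^ (2 * j)) := by
    rw [hL, hLp, Polynomial.eval_comp, Polynomial.eval_pow, Polynomial.eval_X, hsq]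
  have hX : Xp.eval N0 = 2 * 2 ^ (2 * j) + 1 + L := by
    rw [hXp]
    simp only [Polynomial.eval_add, Polynomial.eval_mul, Polynomial.eval_C, Polynomial.eval_X,
      Polynomial.eval_one, Polynomial.eval_pow]
    rw [← hL, hsq]
  have hq' : q = M.p.eval (2 * p.eval (2 * 2 ^ (2 * j) + 1 + L) + 1 +
      (2 * 2 ^ (2 * j) + 1 + L)) + 1 := by
    rw [hq, hQp]
    simp only [Polynomial.eval_add, Polynomial.eval_mul, Polynomial.eval_C,
      Polynomial.eval_one, Polynomial.eval_comp]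
    rw [hX]
  have hK : Kp.eval N0 = 2 * q * (2 * (L + q + 2)) := by
    rw [hKp]
    simp only [Polynomial.eval_add, Polynomial.eval_mul, Polynomial.eval_C]
    rw [← hL, ← hq]
  have hK1 : 2 * q * (2 * (L + q + 2)) ≤ 2 ^ 2 ^ j := by
    rw [← hK, ← hN0]
    exact (he' N0 (by omega)).trans (hn₃ N0 (by omega))
  obtain ⟨a, ha⟩ := exists_bad (j := j) (L := L) (q := q) M p A (by omega) hK1 (by
    intro x hx
    rw [hq']
    have h1 : p.eval x.length ≤ p.eval (2 * 2 ^ (2 * j) + 1 + L) := eval_mono _ hx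
    have h2 : M.p.eval (2 * p.eval x.length + 1 + x.length) ≤
        M.p.eval (2 * p.eval (2 * 2 ^ (2 * j) + 1 + L) + 1 + (2 * 2 ^ (2 * j) + 1 + L)) :=
      eval_mono _ (by omega)
    omega)
  refine ⟨chg A a, r.eval (2 * 2 ^ (2 * j) + 1 + L) + 2 ^ j + 2 * j + 1,
    univ.image (fun t : Ix (2 * q * (2 * (L + q + 2))) j => str' t), fun y hy => ?_,
    fun y hy => ?_, ?_, fun A'' hA'' => ?_⟩
  · apply chg_not
    rintro ⟨t, rfl⟩
    rw [length_str'] at hy
    omega
  · apply chg_not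
    rintro ⟨t, rfl⟩
    exact hy (mem_image.2 ⟨t, mem_univ _, rfl⟩)
  · have h1 := he n (by omega)
    refine le_trans ?_ h1
    have h2 : (Polynomial.C 2 * Polynomial.X : Polynomial ℕ).eval n = 2 * n := by
      simp only [Polynomial.eval_mul, Polynomial.eval_C, Polynomial.eval_X]
    rw [Polynomial.eval_comp, h2]
    refine le_trans ?_ (eval_mono (Kp * Polynomial.X ^ 2) hNn)
    refine card_image_le.trans ?_
    rw [card_univ, Fintype.card_prod, Fintype.card_fin, Fintype.card_fin, Polynomial.eval_mul,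
      Polynomial.eval_pow, Polynomial.eval_X, hK, hsq]
  · have hagr : ∀ (x : List Bool), x.length ≤ 2 * 2 ^ (2 * j) + 1 + L →
        (AccN M p A'' x ↔ AccN M p (chg A a) x) := by
      intro x hx
      apply hr
      intro y hy
      apply hA''
      have := eval_mono r hx
      omega
    refine ⟨j, hJ, fun h hh => ?_⟩
    rw [← hL'] at hh
    have hlen : ∀ (T : Fin (2 ^ (2 * j)) → Bool),
        (pairBits (List.ofFn T) h).length ≤ 2 * 2 ^ (2 * j) + 1 + L := by
      intro T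
      rw [Pool.Agent.H620R2.Gauge.length_pairBits, List.length_ofFn]
      omega
    rcases ha h hh with ⟨s, hs⟩ | hno
    · refine Or.inl ⟨bitsOf (2 ^ j) s, length_bitsOf' _ _, ?_⟩
      have h1 : table (2 * j) (fun x => A'' (bitsOf (2 ^ j) s ++ x)) =
          table (2 * j) (fun x => chg A a (bitsOf (2 ^ j) s ++ x)) := by
        unfold table
        apply List.map_congr_left
        intro x hx
        apply hA''
        rw [List.length_append, length_bitsOf', length_cube_mem _ _ hx]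
        omega
      rw [h1, table_chg hK1, hagr _ (hlen _)]
      exact hs
    · refine Or.inr ?_
      rintro ⟨G, hG1, hG2⟩
      exact hno ⟨G, fun T hT => (hagr _ (hlen T)).1 (hG1 T hT), hG2⟩

/-- **More than polynomially many changes suffice.** -/
theorem many_wk (J : ℕ) {g : ℕ → ℝ}
    (hg : ¬ ∃ c : ℕ, ∀ᶠ n : ℕ in atTop, ∃ m ≥ n, g m ≤ (n : ℝ) ^ c) (O : Oracle) :
    ∃ A, Close g O A ∧ ∀ L, Wk A J L → ¬ WithAdvice (IsNP A) Lᶜ := by
  classical
  push Not at hg
  have hg' : ∀ c n₀ : ℕ, ∃ n ≥ n₀, ∀ m ≥ n, (n : ℝ) ^ c < g m := by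
    intro c n₀
    have h1 := hg c
    rw [frequently_atTop] at h1
    obtain ⟨n, hn, h2⟩ := h1 n₀
    exact ⟨n, hn, h2⟩
  have h0 : ∀ᶠ n : ℕ in atTop, 0 ≤ g n := by
    obtain ⟨n, _, h1⟩ := hg' 0 0
    filter_upwards [eventually_ge_atTop n] with m hm
    have := h1 m hm
    rw [pow_zero] at this
    linarith
  obtain ⟨np, hnp⟩ := exists_np2
  obtain ⟨A, hA, hR⟩ := exists_stages (Rq := fun i => Rq J (np i).1.1 (np i).1.2 (np i).2) h0
    (by
      intro j n₀ T A
      obtain ⟨e, n₁, h1⟩ := forced J (np j).1.1 (np j).1.2 (np j).2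
      obtain ⟨n, hn, h2⟩ := hg' (e + 1) (n₀ + n₁ + T + 1)
      obtain ⟨A', b, D, h3, h4, h5, h6⟩ := h1 n (by omega) A
      refine ⟨n, A', b, D, by omega, h3, h4, fun m hm => ?_, h6⟩
      refine le_trans ?_ (h2 m hm).le
      have h7 : T + D.card ≤ n ^ (e + 1) := by
        have h8 : 1 ≤ n ^ e := Nat.one_le_iff_ne_zero.2 (pow_ne_zero _ (by omega))
        calc T + D.card ≤ T * n ^ e + n ^ e := by nlinarith
          _ = (T + 1) * n ^ e := by ring
          _ ≤ n * n ^ e := Nat.mul_le_mul_right _ (by omega)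
          _ = n ^ (e + 1) := by ring
      exact_mod_cast h7) O
  refine ⟨A, hA, ?_⟩
  rintro L hW ⟨L', h, p, ⟨V, q, ⟨M, hM⟩, hV⟩, hh, hL⟩
  obtain ⟨i, hi⟩ := hnp ((M, q), p)
  have h1 := hR i
  simp only [hi] at h1
  obtain ⟨j, hJ, hj⟩ := h1
  have key : ∀ T : List Bool, T.length = 2 ^ (2 * j) →
      (AccN M q A (pairBits T (h (2 ^ (2 * j)))) ↔ T ∉ L) := by
    intro T hT
    have h2 := hL T
    rw [hT, hV] at h2
    have h3 : (T ∉ L) ↔ T ∈ Lᶜ := Iff.rfl
    rw [h3, h2]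
    unfold AccN
    constructor
    · rintro ⟨w, hw, hw2⟩
      rw [hM, Option.some.injEq] at hw2
      exact ⟨w, hw, hw2⟩
    · rintro ⟨w, hw, hw2⟩
      exact ⟨w, hw, by rw [hM, hw2]⟩
  rcases hj (h (2 ^ (2 * j))) (hh _) with ⟨w, hw, hacc⟩ | hno
  · refine (key _ ?_).1 hacc (hW.planted j hJ w hw)
    simp [table, length_cube]
  · apply hno
    refine ⟨univ.filter (fun T => ¬ List.ofFn T ∈ L), ?_, ?_⟩
    · intro T hT
      exact (key _ (List.length_ofFn)).2 (mem_filter.1 hT).2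
    · have h1 := hW.few j hJ
      have h2 := card_filter_add_card_filter_not (s := (univ : Finset (Fin (2 ^ (2 * j)) → Bool)))
        (fun T => List.ofFn T ∈ L)
      have h3 : (univ : Finset (Fin (2 ^ (2 * j)) → Bool)).card = 2 ^ 2 ^ (2 * j) := by
        simp
      rw [h3] at h2
      have h4 : (((univ.filter (fun T : Fin (2 ^ (2 * j)) → Bool =>
          List.ofFn T ∈ L)).card : ℝ)) + ((univ.filter (fun T : Fin (2 ^ (2 * j)) → Bool =>
          ¬ List.ofFn T ∈ L)).card : ℝ) = 2 ^ 2 ^ (2 * j) := by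
        exact_mod_cast h2
      linarith

end Pool.Agent.TH707.EO
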