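import Mathlib

/-!
# A planted walk is not found by algorithms with few rounds of questions
-/

set_option autoImplicit false

namespace Pool.Agent.TH707.EO

open Finset

/-- the bits of one block: `t` addresses of `l` bits, and a final bit -/
abbrev J (t l : ℕ) : Type := Option (Fin t × Fin l)

variable {t l : ℕ}

/-- the addresses -/
def adr (x : J t l → Bool) : ℕ → (Fin l → Bool)
  | 0 => fun _ => false
  | k + 1 => fun i => if h : k < t then x (some (⟨k, h⟩, i)) else false

/-- rounds of questions -/
structure SRounds (s : ℕ) where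
  /-- the questions of the first `j` rounds -/
  Q : ℕ → (List Bool → Bool) → Finset (List Bool)
  zero : ∀ A, Q 0 A = ∅
  mono : ∀ j A, Q j A ⊆ Q (j + 1) A
  step : ∀ j A A', (∀ q ∈ Q j A, A' q = A q) → Q (j + 1) A' = Q (j + 1) A
  card : ∀ j A, (Q j A).card ≤ s

theorem SRounds.mono' {s : ℕ} (R : SRounds s) (A : List Bool → Bool) {j k : ℕ} (h : j ≤ k) :
    R.Q j A ⊆ R.Q k A := by
  induction k, h using Nat.le_induction with
  | base => exact Subset.refl _
  | succ k hk ih => exact ih.trans (R.mono k A)

/-- replace an address -/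
def setk (k : Fin t) (w : Fin l → Bool) (x : J t l → Bool) : J t l → Bool
  | none => x none
  | some (k', i) => if k' = k then w i else x (some (k', i))

theorem adr_setk_self (k : Fin t) (w : Fin l → Bool) (x : J t l → Bool) :
    adr (setk k w x) (k.1 + 1) = w := by
  funext i
  simp [adr, setk]

theorem adr_setk_ne (k : Fin t) (w : Fin l → Bool) (x : J t l → Bool) {j : ℕ} (h : j ≠ k.1 + 1) :
    adr (setk k w x) j = adr x j := by
  cases j with
  | zero => rfl
  | succ j =>
    funext i
    simp only [adr]
    by_cases hj : j < t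
    · rw [dif_pos hj, dif_pos hj]
      simp only [setk]
      rw [if_neg]
      intro he
      exact h (by rw [← he])
    · rw [dif_neg hj, dif_neg hj]

theorem setk_setk (k : Fin t) (w : Fin l → Bool) (x : J t l → Bool) :
    setk k (adr x (k.1 + 1)) (setk k w x) = x := by
  funext p
  cases p with
  | none => rfl
  | some p =>
    obtain ⟨k', i⟩ := p
    simp only [setk]
    by_cases h : k' = k
    · subst h
      simp [adr]
    · rw [if_neg h, if_neg h]

/-- resampling of an address -/
theorem sum_setk (k : Fin t) (f : (J t l → Bool) → (Fin l → Bool) → ℕ)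
    (hf : ∀ x w w', f (setk k w x) w' = f x w') :
    (∑ x : J t l → Bool, f x (adr x (k.1 + 1))) * 2 ^ l =
      ∑ x : J t l → Bool, ∑ w : Fin l → Bool, f x w := by
  let e : Equiv.Perm ((J t l → Bool) × (Fin l → Bool)) :=
    Function.Involutive.toPerm (fun p => (setk k p.2 p.1, adr p.1 (k.1 + 1))) (by
      rintro ⟨x, w⟩
      simp only [setk_setk, adr_setk_self])
  have h1 : ∑ x : J t l → Bool, ∑ w : Fin l → Bool, f x w =
      ∑ p : (J t l → Bool) × (Fin l → Bool), f p.1 p.2 :=
    (Fintype.sum_prod_type (fun p : (J t l → Bool) × (Fin l → Bool) => f p.1 p.2)).symm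
  rw [h1, ← Equiv.sum_comp e (fun p => f p.1 p.2)]
  have h2 : ∀ p : (J t l → Bool) × (Fin l → Bool), f (e p).1 (e p).2 =
      f p.1 (adr p.1 (k.1 + 1)) := fun p => hf p.1 p.2 _
  rw [Finset.sum_congr rfl fun p _ => h2 p, Fintype.sum_prod_type]
  simp only [sum_const, card_univ, Fintype.card_fun, Fintype.card_bool, Fintype.card_fin,
    smul_eq_mul]
  rw [← mul_sum, mul_comm]

section

variable {s : ℕ} (R : SRounds s) (B : (J t l → Bool) → (List Bool → Bool))
  (node : List Bool → Option (ℕ × (Fin l → Bool)))

/-- the answer to `q` is the same -/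
def Same (x x' : J t l → Bool) (q : List Bool) : Prop :=
  ∀ k w, node q = some (k, w) → (w = adr x k ↔ w = adr x' k) ∧
    (w = adr x k → if k < t then adr x (k + 1) = adr x' (k + 1) else x none = x' none)

/-- in round `j` something is known about the walk at level `j` or later -/
def Touch (j : ℕ) (x : J t l → Bool) : Prop :=
  ∃ q ∈ R.Q j (B x), ∃ k, j ≤ k ∧ node q = some (k, adr x k)

/-- nothing is known up to round `j` -/
def Unt (j : ℕ) (x : J t l → Bool) : Prop := ∀ j' ≤ j, ¬ Touch R B node j' x

variable (hB : ∀ x x' q, Same node x x' q → B x' q = B x q)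
include hB

theorem eqQ {j : ℕ} (hj : j ≤ t) {x x' : J t l → Bool} (h : Unt R B node j x)
    (h' : Unt R B node j x') (hp : ∀ k ≤ j, adr x k = adr x' k) :
    ∀ j' ≤ j + 1, R.Q j' (B x') = R.Q j' (B x) := by
  intro j'
  induction j' with
  | zero => intro _; rw [R.zero, R.zero]
  | succ j' ih =>
    intro hj'
    have ih := ih (by omega)
    apply R.step
    intro q hq
    apply hB
    intro k w hk
    have h1 : j' ≤ k → w ≠ adr x k := fun hjk he =>
      h j' (by omega) ⟨q, hq, k, hjk, by rw [hk, he]⟩
    have h2 : j' ≤ k → w ≠ adr x' k := fun hjk he =>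
      h' j' (by omega) ⟨q, by rw [ih]; exact hq, k, hjk, by rw [hk, he]⟩
    rcases Nat.lt_or_ge k j' with hlt | hge
    · refine ⟨by rw [hp k (by omega)], fun _ => ?_⟩
      rw [if_pos (by omega)]
      exact hp (k + 1) (by omega)
    · exact ⟨⟨fun he => absurd he (h1 hge), fun he => absurd he (h2 hge)⟩,
        fun he => absurd he (h1 hge)⟩

open Classical in
theorem step_bound (hn : ∀ q k w, node q = some (k, w) → k ≤ t) {j : ℕ} (hj : j < t) :
    (univ.filter fun x : J t l → Bool => Unt R B node j x ∧ Touch R B node (j + 1) x).card *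
      2 ^ l ≤ s * 2 ^ Fintype.card (J t l) := by
  set pre : (J t l → Bool) → (Fin (j + 1) → (Fin l → Bool)) := fun x k => adr x k with hpre
  set G : (Fin (j + 1) → (Fin l → Bool)) → Finset (List Bool) := fun π =>
    if h : ∃ x', Unt R B node j x' ∧ pre x' = π then R.Q (j + 1) (B h.choose) else ∅ with hG
  have hGs : ∀ π, (G π).card ≤ s := by
    intro π
    simp only [hG]
    split_ifs
    · exact R.card _ _
    · simp
  have hGx : ∀ x, Unt R B node j x → G (pre x) = R.Q (j + 1) (B x) := by
    intro x hx
    have hex : ∃ x', Unt R B node j x' ∧ pre x' = pre x := ⟨x, hx, rfl⟩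
    simp only [hG]
    rw [dif_pos hex]
    obtain ⟨h1, h2⟩ := hex.choose_spec
    refine eqQ R B node hB hj.le hx h1 (fun k hk => ?_) (j + 1) le_rfl
    have := congrFun h2 ⟨k, by omega⟩
    exact this.symm
  -- the number of the questions which hit the walk at level `k + 1`
  set f : Fin t → (J t l → Bool) → (Fin l → Bool) → ℕ := fun k x w =>
    ((G (pre x)).filter fun q => j ≤ k.1 ∧ node q = some (k.1 + 1, w)).card with hf
  have h1 : ∀ x : J t l → Bool, (if Unt R B node j x ∧ Touch R B node (j + 1) x then 1 else 0) ≤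
      ∑ k : Fin t, f k x (adr x (k.1 + 1)) := by
    intro x
    split_ifs with h
    · obtain ⟨h2, q, hq, k, hk, hnode⟩ := h
      have hkt := hn q k _ hnode
      obtain ⟨k', rfl⟩ : ∃ k', k = k' + 1 := ⟨k - 1, by omega⟩
      refine le_trans ?_ (single_le_sum (f := fun k : Fin t => f k x (adr x (k.1 + 1)))
        (fun _ _ => Nat.zero_le _) (mem_univ (⟨k', by omega⟩ : Fin t)))
      simp only [hf]
      rw [Nat.one_le_iff_ne_zero, ← Nat.pos_iff_ne_zero, card_pos]
      exact ⟨q, mem_filter.2 ⟨by rw [hGx x h2]; exact hq, by omega, hnode⟩⟩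
    · exact Nat.zero_le _
  have h2 : ∀ k : Fin t, (∑ x : J t l → Bool, f k x (adr x (k.1 + 1))) * 2 ^ l =
      ∑ x : J t l → Bool, ∑ w : Fin l → Bool, f k x w := by
    intro k
    refine sum_setk k (f k) fun x w w' => ?_
    simp only [hf]
    by_cases hjk : j ≤ k.1
    · have h3 : pre (setk k w x) = pre x := by
        funext i
        simp only [hpre]
        exact adr_setk_ne k w x (by have := i.2; omega)
      rw [h3]
    · simp [hjk]
  have h3 : ∀ x : J t l → Bool, ∑ k : Fin t, ∑ w : Fin l → Bool, f k x w ≤ s := by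
    intro x
    refine le_trans ?_ (hGs (pre x))
    simp only [hf]
    rw [← Fintype.sum_prod_type
      (fun p : Fin t × (Fin l → Bool) => ((G (pre x)).filter fun q => j ≤ p.1.1 ∧
        node q = some (p.1.1 + 1, p.2)).card)]
    rw [← card_biUnion]
    · refine card_le_card ?_
      intro q hq
      rw [mem_biUnion] at hq
      obtain ⟨p, _, h4⟩ := hq
      exact (mem_filter.1 h4).1
    · intro p _ p' _ hne
      rw [Function.onFun, disjoint_left]
      intro q hq hq'
      have e1 := (mem_filter.1 hq).2.2
      have e2 := (mem_filter.1 hq').2.2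
      rw [e1, Option.some.injEq, Prod.mk.injEq] at e2
      exact hne (Prod.ext (Fin.ext (by omega)) e2.2)
  calc (univ.filter fun x : J t l → Bool => Unt R B node j x ∧ Touch R B node (j + 1) x).card *
        2 ^ l = (∑ x : J t l → Bool,
          if Unt R B node j x ∧ Touch R B node (j + 1) x then 1 else 0) * 2 ^ l := by
        rw [card_filter]
    _ ≤ (∑ x : J t l → Bool, ∑ k : Fin t, f k x (adr x (k.1 + 1))) * 2 ^ l :=
        Nat.mul_le_mul_right _ (sum_le_sum fun x _ => h1 x)
    _ = ∑ k : Fin t, (∑ x : J t l → Bool, f k x (adr x (k.1 + 1))) * 2 ^ l := by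
        rw [sum_comm, sum_mul]
    _ = ∑ k : Fin t, ∑ x : J t l → Bool, ∑ w : Fin l → Bool, f k x w :=
        sum_congr rfl fun k _ => h2 k
    _ = ∑ x : J t l → Bool, ∑ k : Fin t, ∑ w : Fin l → Bool, f k x w := sum_comm
    _ ≤ ∑ _x : J t l → Bool, s := sum_le_sum fun x _ => h3 x
    _ = s * 2 ^ Fintype.card (J t l) := by
        rw [sum_const, card_univ, Fintype.card_fun, Fintype.card_bool, smul_eq_mul, mul_comm]

open Classical in
theorem touch_bound (hn : ∀ q k w, node q = some (k, w) → k ≤ t) : ∀ j ≤ t,
    (univ.filter fun x : J t l → Bool => ¬ Unt R B node j x).card * 2 ^ l ≤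
      j * s * 2 ^ Fintype.card (J t l) := by
  intro j
  induction j with
  | zero =>
    intro _
    have h1 : (univ.filter fun x : J t l → Bool => ¬ Unt R B node 0 x) = ∅ := by
      rw [filter_eq_empty_iff]
      intro x _ h
      apply h
      rintro j' hj' ⟨q, hq, -⟩
      rw [Nat.le_zero.1 hj', R.zero] at hq
      exact absurd hq (notMem_empty q)
    rw [h1]
    simp
  | succ j ih =>
    intro hj
    have ih := ih (by omega)
    have h1 := step_bound R B node hB hn (j := j) (by omega)
    have h2 : (univ.filter fun x : J t l → Bool => ¬ Unt R B node (j + 1) x) ⊆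
        (univ.filter fun x : J t l → Bool => ¬ Unt R B node j x) ∪
        (univ.filter fun x : J t l → Bool => Unt R B node j x ∧ Touch R B node (j + 1) x) := by
      intro x hx
      rw [mem_filter] at hx
      rw [mem_union, mem_filter, mem_filter]
      by_cases h : Unt R B node j x
      · refine Or.inr ⟨mem_univ _, h, ?_⟩
        by_contra hno
        apply hx.2
        intro j' hj'
        rcases Nat.lt_or_ge j' (j + 1) with h3 | h3
        · exact h j' (by omega)
        · have : j' = j + 1 := by omega
          rw [this]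
          exact hno
      · exact Or.inl ⟨mem_univ _, h⟩
    have h3 := (card_le_card h2).trans (card_union_le _ _)
    calc (univ.filter fun x : J t l → Bool => ¬ Unt R B node (j + 1) x).card * 2 ^ l
        ≤ ((univ.filter fun x : J t l → Bool => ¬ Unt R B node j x).card +
          (univ.filter fun x : J t l → Bool =>
            Unt R B node j x ∧ Touch R B node (j + 1) x).card) * 2 ^ l :=
          Nat.mul_le_mul_right _ h3
      _ = (univ.filter fun x : J t l → Bool => ¬ Unt R B node j x).card * 2 ^ l +
          (univ.filter fun x : J t l → Bool =>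
            Unt R B node j x ∧ Touch R B node (j + 1) x).card * 2 ^ l := add_mul _ _ _
      _ ≤ j * s * 2 ^ Fintype.card (J t l) + s * 2 ^ Fintype.card (J t l) :=
          Nat.add_le_add ih h1
      _ = (j + 1) * s * 2 ^ Fintype.card (J t l) := by ring

/-- the flipped final bit -/
def flp (x : J t l → Bool) : J t l → Bool
  | none => !x none
  | some p => x (some p)

omit hB in
theorem adr_flp (x : J t l → Bool) (k : ℕ) : adr (flp x) k = adr x k := by
  cases k with
  | zero => rfl
  | succ k =>
    funext i
    simp [adr, flp]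

open Classical in
/-- **The final bit is not found.** -/
theorem walk_bound (hn : ∀ q k w, node q = some (k, w) → k ≤ t)
    (out : (List Bool → Bool) → Bool)
    (hout : ∀ A A', (∀ q ∈ R.Q t A, A' q = A q) → out A' = out A) :
    (univ.filter fun x : J t l → Bool => out (B x) = x none).card * (2 * 2 ^ l) ≤
      (2 ^ l + 2 * (t * s)) * 2 ^ Fintype.card (J t l) := by
  set G := univ.filter fun x : J t l → Bool => Unt R B node t x ∧ out (B x) = x none with hG
  set G' := univ.filter fun x : J t l → Bool => Unt R B node t x ∧ out (B x) ≠ x none with hG'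
  have hsame : ∀ x : J t l → Bool, Unt R B node t x → ∀ q ∈ R.Q t (B x), B (flp x) q = B x q := by
    intro x hx q hq
    apply hB
    intro k w hk
    refine ⟨by rw [adr_flp], fun hw => ?_⟩
    have hkt : ¬ t ≤ k := fun h => hx t le_rfl ⟨q, hq, k, h, by rw [hk, hw]⟩
    rw [if_pos (by omega), adr_flp]
  have hQ : ∀ x : J t l → Bool, Unt R B node t x → ∀ j ≤ t,
      R.Q j (B (flp x)) = R.Q j (B x) := by
    intro x hx j hj
    cases j with
    | zero => rw [R.zero, R.zero]
    | succ j =>
      apply R.step
      intro q hq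
      exact hsame x hx q (R.mono' _ (by omega) hq)
  have hU : ∀ x : J t l → Bool, Unt R B node t x → Unt R B node t (flp x) := by
    rintro x hx j hj ⟨q, hq, k, hk, h⟩
    rw [hQ x hx j hj] at hq
    rw [adr_flp] at h
    exact hx j hj ⟨q, hq, k, hk, h⟩
  have hGG : G.card ≤ G'.card := by
    refine card_le_card_of_injOn flp ?_ ?_
    · intro x hx
      rw [mem_coe, hG, mem_filter] at hx
      obtain ⟨-, h1, h2⟩ := hx
      rw [mem_coe, hG', mem_filter]
      refine ⟨mem_univ _, hU x h1, ?_⟩
      rw [hout _ _ (hsame x h1), h2]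
      simp [flp]
    · intro x _ x' _ h
      funext p
      have h1 := congrFun h p
      cases p with
      | none => simpa [flp] using h1
      | some p => simpa [flp] using h1
  have hdisj : Disjoint G G' := by
    rw [disjoint_left]
    intro x h1 h2
    rw [hG, mem_filter] at h1
    rw [hG', mem_filter] at h2
    exact h2.2.2 h1.2.2
  have h2G : 2 * G.card ≤ 2 ^ Fintype.card (J t l) := by
    have h1 : (G ∪ G').card ≤ (univ : Finset (J t l → Bool)).card := card_le_card (subset_univ _)
    rw [card_union_of_disjoint hdisj, card_univ, Fintype.card_fun, Fintype.card_bool] at h1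
    omega
  have hcov : (univ.filter fun x : J t l → Bool => out (B x) = x none) ⊆
      G ∪ (univ.filter fun x : J t l → Bool => ¬ Unt R B node t x) := by
    intro x hx
    rw [mem_filter] at hx
    rw [mem_union, hG, mem_filter, mem_filter]
    by_cases h : Unt R B node t x
    · exact Or.inl ⟨mem_univ _, h, hx.2⟩
    · exact Or.inr ⟨mem_univ _, h⟩
  have h1 := (card_le_card hcov).trans (card_union_le _ _)
  have h2 := touch_bound R B node hB hn t le_rfl
  calc (univ.filter fun x : J t l → Bool => out (B x) = x none).card * (2 * 2 ^ l)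
      ≤ (G.card + (univ.filter fun x : J t l → Bool => ¬ Unt R B node t x).card) * (2 * 2 ^ l) :=
        Nat.mul_le_mul_right _ h1
    _ = 2 * G.card * 2 ^ l +
        2 * ((univ.filter fun x : J t l → Bool => ¬ Unt R B node t x).card * 2 ^ l) := by ring
    _ ≤ 2 ^ Fintype.card (J t l) * 2 ^ l + 2 * (t * s * 2 ^ Fintype.card (J t l)) :=
        Nat.add_le_add (Nat.mul_le_mul_right _ h2G) (Nat.mul_le_mul_left _ h2)
    _ = (2 ^ l + 2 * (t * s)) * 2 ^ Fintype.card (J t l) := by ring

end

end Pool.Agent.TH707.EO
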